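import Pool.Agent.H63.SB.Tk
import Pool.Agent.H63.SB.Targets

/-!
# Centred supporting planes (module A5)
-/

namespace Pool.Agent.H49.SB

open Set Filter Topology Pool.Agent.H63.SB
open scoped RealInnerProductSpace

variable {E : Type*} [NormedAddCommGroup E] [InnerProductSpace ℝ E]
variable {K L : Set E}

/-- Points where the gauge of `L` is touched from below by a paraboloid are dense. -/
theorem touch [FiniteDimensional ℝ E] (hL : StarB L) {V : Submodule ℝ E} {O : Set E}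
    (hO : IsOpen O) (hOL : O ⊆ Dir L) {z : E} (hzV : z ∈ V) (hzO : z ∈ O) {ε : ℝ} (hε : 0 < ε) :
    ∃ z₁ ∈ O, z₁ ∈ V ∧ dist z₁ z < ε ∧ ∃ (m : E) (A ρ : ℝ), 0 < ρ ∧
      (∀ h ∈ V, ‖h‖ < ρ →
        (rad L z₁)⁻¹ + ⟪m, h⟫ - A * ‖h‖ ^ 2 ≤ (rad L (z₁ + h))⁻¹) ∧
      ⟪m, z₁⟫ = (rad L z₁)⁻¹ := by
  obtain ⟨r₀, hr₀, hball⟩ := Metric.isOpen_iff.1 hO z hzO
  set r : ℝ := min (r₀ / 2) (ε / 2) with hr
  have hr0 : 0 < r := by positivity
  have hrO : Metric.closedBall z r ⊆ O := by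
    refine (Metric.closedBall_subset_ball ?_).trans hball
    exact lt_of_le_of_lt (min_le_left _ _) (by linarith)
  have hrε : r < ε := lt_of_le_of_lt (min_le_right _ _) (by linarith)
  have hVc : IsClosed (V : Set E) := Submodule.closed_of_finiteDimensional V
  have hC : IsCompact ((V : Set E) ∩ Metric.closedBall z r) :=
    (isCompact_closedBall z r).inter_left hVc
  have hGc : ContinuousOn (fun z' => (rad L z')⁻¹) ((V : Set E) ∩ Metric.closedBall z r) := by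
    apply ContinuousOn.inv₀
    · exact hL.cont.mono fun y hy => hOL (hrO hy.2)
    · intro y hy
      exact (hL.rad_pos (hOL (hrO hy.2))).ne'
  set A : ℝ := ((rad L z)⁻¹ + 1) / r ^ 2 with hA
  have hzpos : 0 < (rad L z)⁻¹ := inv_pos.2 (hL.rad_pos (hOL hzO))
  have hA0 : 0 < A := by positivity
  have hAr : A * r ^ 2 = (rad L z)⁻¹ + 1 := by
    rw [hA]; field_simp
  obtain ⟨z₁, ⟨hz₁V, hz₁b⟩, hmin⟩ := hC.exists_isMinOn ⟨z, hzV, Metric.mem_closedBall_self hr0.le⟩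
    (hGc.add ((by fun_prop : Continuous fun z' : E => A * ‖z' - z‖ ^ 2).continuousOn))
  have hmin' : ∀ y ∈ V, dist y z ≤ r → (rad L z₁)⁻¹ + A * ‖z₁ - z‖ ^ 2 ≤
      (rad L y)⁻¹ + A * ‖y - z‖ ^ 2 := fun y hy hyr => hmin ⟨hy, hyr⟩
  have hz₁O : z₁ ∈ O := hrO hz₁b
  have hz₁L : z₁ ∈ Dir L := hOL hz₁O
  have hlt : ‖z₁ - z‖ < r := by
    by_contra hge
    push Not at hge
    have h1 := hmin' z hzV (by rw [dist_self]; exact hr0.le)
    rw [sub_self, norm_zero] at h1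
    have h2 : A * r ^ 2 ≤ A * ‖z₁ - z‖ ^ 2 := by gcongr
    have h3 : 0 < (rad L z₁)⁻¹ := inv_pos.2 (hL.rad_pos hz₁L)
    rw [hAr] at h2
    linarith
  refine ⟨z₁, hz₁O, hz₁V, lt_of_le_of_lt hz₁b hrε, (-(2 * A)) • (z₁ - z), A, r - ‖z₁ - z‖,
    by linarith, ?_, ?_⟩
  · intro h hh hhn
    have hd : dist (z₁ + h) z ≤ r := by
      rw [dist_eq_norm, add_sub_right_comm]
      have := norm_add_le (z₁ - z) h
      linarith
    have h1 := hmin' (z₁ + h) (V.add_mem hz₁V hh) hd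
    have h2 : ‖z₁ + h - z‖ ^ 2 = ‖z₁ - z‖ ^ 2 + 2 * ⟪z₁ - z, h⟫ + ‖h‖ ^ 2 := by
      rw [add_sub_right_comm, norm_add_sq_real]
    rw [h2] at h1
    rw [inner_smul_left]
    simp only [conj_trivial]
    nlinarith
  · -- homogeneity
    set m : E := (-(2 * A)) • (z₁ - z) with hm
    have htouch : ∀ h ∈ V, ‖h‖ < r - ‖z₁ - z‖ →
        (rad L z₁)⁻¹ + ⟪m, h⟫ - A * ‖h‖ ^ 2 ≤ (rad L (z₁ + h))⁻¹ := by
      intro h hh hhn
      have hd : dist (z₁ + h) z ≤ r := by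
        rw [dist_eq_norm, add_sub_right_comm]
        have := norm_add_le (z₁ - z) h
        linarith
      have h1 := hmin' (z₁ + h) (V.add_mem hz₁V hh) hd
      have h2 : ‖z₁ + h - z‖ ^ 2 = ‖z₁ - z‖ ^ 2 + 2 * ⟪z₁ - z, h⟫ + ‖h‖ ^ 2 := by
        rw [add_sub_right_comm, norm_add_sq_real]
      rw [h2] at h1
      rw [hm, inner_smul_left]
      simp only [conj_trivial]
      nlinarith
    set ρ : ℝ := r - ‖z₁ - z‖ with hρ
    have hρ0 : 0 < ρ := by linarith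
    set G := (rad L z₁)⁻¹ with hG
    have hs : ∀ s : ℝ, -1 < s → ‖s • z₁‖ < ρ → s * (⟪m, z₁⟫ - G) ≤ A * s ^ 2 * ‖z₁‖ ^ 2 := by
      intro s hs1 hsρ
      have h1 := htouch (s • z₁) (V.smul_mem _ hz₁V) hsρ
      have h2 : z₁ + s • z₁ = (1 + s) • z₁ := by module
      rw [h2, rad_smul (by linarith), inv_div, div_eq_mul_inv, inner_smul_right, norm_smul,
        mul_pow, Real.norm_eq_abs, sq_abs, ← hG] at h1
      nlinarith
    have hlim : ∀ᶠ s : ℝ in 𝓝[>] 0, s < 1 ∧ ‖s • z₁‖ < ρ := by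
      have h1 : ∀ᶠ s : ℝ in 𝓝 0, s < 1 := gt_mem_nhds one_pos
      have h2 : Tendsto (fun s : ℝ => ‖s • z₁‖) (𝓝 0) (𝓝 ‖(0 : ℝ) • z₁‖) :=
        (by fun_prop : Continuous fun s : ℝ => ‖s • z₁‖).tendsto 0
      rw [zero_smul, norm_zero] at h2
      exact nhdsWithin_le_nhds (h1.and (h2.eventually (gt_mem_nhds hρ0)))
    have hlimA : Tendsto (fun s : ℝ => A * s * ‖z₁‖ ^ 2) (𝓝[>] 0) (𝓝 0) := by
      have h2 : Tendsto (fun s : ℝ => A * s * ‖z₁‖ ^ 2) (𝓝 0) (𝓝 (A * 0 * ‖z₁‖ ^ 2)) :=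
        (by fun_prop : Continuous fun s : ℝ => A * s * ‖z₁‖ ^ 2).tendsto 0
      rw [mul_zero, zero_mul] at h2
      exact h2.mono_left nhdsWithin_le_nhds
    apply le_antisymm
    · have h1 : ⟪m, z₁⟫ - G ≤ 0 := by
        refine ge_of_tendsto hlimA ?_
        filter_upwards [hlim, self_mem_nhdsWithin] with s hs1 hs2
        have hs2 : 0 < s := hs2
        have h3 := hs s (by linarith) hs1.2
        have h4 : s * (⟪m, z₁⟫ - G) ≤ s * (A * s * ‖z₁‖ ^ 2) := by nlinarith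
        exact le_of_mul_le_mul_left h4 hs2
      linarith
    · have h1 : G - ⟪m, z₁⟫ ≤ 0 := by
        refine ge_of_tendsto hlimA ?_
        filter_upwards [hlim, self_mem_nhdsWithin] with s hs1 hs2
        have hs2 : 0 < s := hs2
        have h3 := hs (-s) (by linarith) (by rw [neg_smul, norm_neg]; exact hs1.2)
        have h4 : s * (G - ⟪m, z₁⟫) ≤ s * (A * s * ‖z₁‖ ^ 2) := by nlinarith
        exact le_of_mul_le_mul_left h4 hs2
      linarith

theorem nonsharp (hK : StarB K) (hL : StarB L) {V S : Submodule ℝ E} (hSV : S ≤ V) {z₁ : E}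
    (hz₁ : z₁ ∈ S) (hzL : z₁ ∈ Dir L) (hzK : z₁ ∉ Dir K) {m : E} {A ρ : ℝ} (hρ : 0 < ρ)
    (htouch : ∀ h ∈ V, ‖h‖ < ρ →
      (rad L z₁)⁻¹ + ⟪m, h⟫ - A * ‖h‖ ^ 2 ≤ (rad L (z₁ + h))⁻¹)
    {x : E} {l : ℝ} (h : Hom K L S x l) {μ : ℝ} (hx : x = μ • z₁) {e : E} (he : e ∈ Dir K)
    (heS : e ∈ S) : ⟪m, e⟫ ≤ 0 := by
  have hg := h.gHom hK hL
  have hl := h.2.1
  have hq2 : z₁ ∈ Dir L ∩ (S : Set E) := ⟨hzL, hz₁⟩
  have hq1 : z₁ ∉ Dir K ∩ (S : Set E) := fun h => hzK h.1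
  have hx0 : x ≠ 0 := hg.ne_zero hK hL hq2 hq1
  have hxD : x ∈ Dir K := (hg.x_mem hx0).2.1
  have hμ : μ < 0 := by
    rcases lt_trichotomy μ 0 with h1 | h1 | h1
    · exact h1
    · rw [h1, zero_smul] at hx; exact absurd hx hx0
    · rw [hx] at hxD
      exact absurd ((smul_mem_Dir h1).1 hxD) hzK
  set lam : ℝ := -μ with hlam
  have hlam0 : 0 < lam := by linarith
  have hnx : -x = lam • z₁ := by rw [hx, hlam, neg_smul]
  have hrad : rad L z₁ = lam / l := by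
    have h1 := hg.rad_neg hK hL hx0 (hg.neg_notMem hK hL hq2 hq1)
    rw [hnx, rad_smul hlam0] at h1
    field_simp at h1 ⊢
    linarith
  obtain ⟨he0, ε, hε, heK⟩ := he
  have hz₁0 : z₁ ≠ 0 := hzL.1
  -- the inequality for small `σ`
  have hσ : ∀ σ : ℝ, 0 < σ → σ * lam ≤ ε → ‖σ • e‖ < ρ → ‖σ • e‖ < ‖z₁‖ →
      ⟪m, e⟫ ≤ A * σ * ‖e‖ ^ 2 := by
    intro σ hσ0 h1 h2 h3
    have h4 : (σ * lam) • e ∈ K := by
      have := hK.star _ heK (σ * lam / ε) (by positivity) ((div_le_one hε).2 h1)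
      rwa [smul_smul, div_mul_cancel₀ _ hε.ne'] at this
    have h5 : (lam / l) • (z₁ + σ • e) ∈ S := S.smul_mem _ (S.add_mem hz₁ (S.smul_mem _ heS))
    have h6 : x + l • (lam / l) • (z₁ + σ • e) = (σ * lam) • e := by
      rw [smul_smul, mul_div_cancel₀ _ hl.ne', hx]
      have : μ = -lam := by rw [hlam, neg_neg]
      rw [this]
      module
    have h7 : (lam / l) • (z₁ + σ • e) ∈ L := by
      rw [← h.2.2 _ h5, h6]
      exact h4
    have hw0 : z₁ + σ • e ≠ 0 := by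
      intro h0
      have : z₁ = -(σ • e) := eq_neg_of_add_eq_zero_left h0
      rw [this, norm_neg] at h3
      exact lt_irrefl _ h3
    have h8 : lam / l ≤ rad L (z₁ + σ • e) := (hL.smul_mem hw0 (by positivity)).1 h7
    rw [← hrad] at h8
    have h9 : (rad L (z₁ + σ • e))⁻¹ ≤ (rad L z₁)⁻¹ := inv_anti₀ (hL.rad_pos hzL) h8
    have h10 := htouch (σ • e) (V.smul_mem _ (hSV heS)) h2
    rw [inner_smul_right, norm_smul, mul_pow, Real.norm_eq_abs, sq_abs] at h10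
    have h11 : σ * ⟪m, e⟫ ≤ σ * (A * σ * ‖e‖ ^ 2) := by nlinarith
    exact le_of_mul_le_mul_left h11 hσ0
  have hlimA : Tendsto (fun s : ℝ => A * s * ‖e‖ ^ 2) (𝓝[>] 0) (𝓝 0) := by
    have h2 : Tendsto (fun s : ℝ => A * s * ‖e‖ ^ 2) (𝓝 0) (𝓝 (A * 0 * ‖e‖ ^ 2)) :=
      (by fun_prop : Continuous fun s : ℝ => A * s * ‖e‖ ^ 2).tendsto 0
    rw [mul_zero, zero_mul] at h2
    exact h2.mono_left nhdsWithin_le_nhds
  refine ge_of_tendsto hlimA ?_
  have h1 : Tendsto (fun s : ℝ => s * lam) (𝓝 0) (𝓝 (0 * lam)) :=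
    (by fun_prop : Continuous fun s : ℝ => s * lam).tendsto 0
  rw [zero_mul] at h1
  have h2 : Tendsto (fun s : ℝ => ‖s • e‖) (𝓝 0) (𝓝 ‖(0 : ℝ) • e‖) :=
    (by fun_prop : Continuous fun s : ℝ => ‖s • e‖).tendsto 0
  rw [zero_smul, norm_zero] at h2
  filter_upwards [self_mem_nhdsWithin, nhdsWithin_le_nhds (h1.eventually (gt_mem_nhds hε)),
    nhdsWithin_le_nhds (h2.eventually (gt_mem_nhds hρ)),
    nhdsWithin_le_nhds (h2.eventually (gt_mem_nhds (norm_pos_iff.2 hz₁0)))] with s hs0 hs1 hs2 hs3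
  exact hσ s hs0 hs1.le hs2 hs3

theorem linInd_of_orth {q v : E} (hq : q ≠ 0) (hv : ‖v‖ = 1) (hqv : ⟪q, v⟫ = 0) :
    LinearIndependent ℝ ![q, v] := by
  rw [LinearIndependent.pair_iff]
  intro s t hst
  have h1 : ⟪s • q + t • v, v⟫ = 0 := by rw [hst, inner_zero_left]
  rw [inner_add_left, inner_smul_left, inner_smul_left, hqv, real_inner_self_eq_norm_sq, hv] at h1
  have ht : t = 0 := by simpa using h1
  rw [ht, zero_smul, add_zero] at hst
  exact ⟨(smul_eq_zero.1 hst).resolve_right hq, ht⟩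

theorem centre {E : Type} [NormedAddCommGroup E] [InnerProductSpace ℝ E] [FiniteDimensional ℝ E]
    {K L : Set E} (hU : CA K L) {V : Submodule ℝ E}
    (hV : Module.finrank ℝ V = 3) {q : E} (hqV : q ∈ V) (hqL : q ∈ interior (Dir L))
    (hqK : q ∉ Dir K) :
    ∃ v ∈ V, ‖v‖ = 1 ∧ ⟪q, v⟫ = 0 ∧ ∃ μ l : ℝ, Hom K L (Submodule.span ℝ {q, v}) (μ • q) l := by
  have hK := hU.hK
  have hL := hU.hL
  have hq0 : q ≠ 0 := (interior_subset hqL).1
  have hW : Module.finrank ℝ ((Submodule.span ℝ {q})ᗮ ⊓ V : Submodule ℝ E) = 2 := by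
    have h1 := Submodule.finrank_add_inf_finrank_orthogonal (𝕜 := ℝ)
      (show Submodule.span ℝ {q} ≤ V from by rwa [Submodule.span_singleton_le_iff_mem])
    rw [finrank_span_singleton hq0, hV] at h1
    omega
  let b := (stdOrthonormalBasis ℝ ((Submodule.span ℝ {q})ᗮ ⊓ V : Submodule ℝ E)).reindex
    (finCongr hW)
  set e : E := (b 0 : E) with he
  set f : E := (b 1 : E) with hf
  have heV : e ∈ V := (b 0).2.2
  have hfV : f ∈ V := (b 1).2.2
  have hqe : ⟪q, e⟫ = 0 := Submodule.mem_orthogonal_singleton_iff_inner_right.1 (b 0).2.1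
  have hqf : ⟪q, f⟫ = 0 := Submodule.mem_orthogonal_singleton_iff_inner_right.1 (b 1).2.1
  have hen : ‖e‖ = 1 := by
    have := b.orthonormal.1 0
    rwa [Submodule.coe_norm] at this
  have hfn : ‖f‖ = 1 := by
    have := b.orthonormal.1 1
    rwa [Submodule.coe_norm] at this
  have hef : ⟪e, f⟫ = 0 := by
    have h : ⟪b 0, b 1⟫ = 0 := b.orthonormal.2 (by decide : (0 : Fin 2) ≠ 1)
    rwa [Submodule.coe_inner] at h
  let v : ℝ → E := fun θ => Real.cos θ • e + Real.sin θ • f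
  have hvc : Continuous v := by
    show Continuous fun θ : ℝ => Real.cos θ • e + Real.sin θ • f
    fun_prop
  have hvV : ∀ θ, v θ ∈ V := fun θ => V.add_mem (V.smul_mem _ heV) (V.smul_mem _ hfV)
  have hqv : ∀ θ, ⟪q, v θ⟫ = 0 := by
    intro θ
    simp only [v, inner_add_right, inner_smul_right, hqe, hqf]; ring
  have hvn : ∀ θ, ‖v θ‖ = 1 := by
    intro θ
    have h1 : ‖v θ‖ ^ 2 = 1 := by
      simp only [v]
      rw [norm_add_sq_real, norm_smul, norm_smul, hen, hfn, inner_smul_left, inner_smul_right, hef]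
      simp only [Real.norm_eq_abs, mul_one, sq_abs, mul_zero, add_zero]
      exact Real.cos_sq_add_sin_sq θ
    have h2 : 0 ≤ ‖v θ‖ := norm_nonneg _
    nlinarith
  have hli : ∀ θ, LinearIndependent ℝ ![q, v θ] := fun θ => linInd_of_orth hq0 (hvn θ) (hqv θ)
  have hqS : ∀ θ, q ∈ Submodule.span ℝ {q, v θ} := fun θ => Submodule.subset_span (by simp)
  have hgood := fun θ => hU.good q hqL hqK (Submodule.span ℝ {q, v θ})
    (finrank_span_pair (hli θ)) (hqS θ)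
  have hneg : -q ∈ Dir K := hU.neg q hqL hqK
  let X : ℝ → E := fun θ => ctr K L (Submodule.span ℝ {q, v θ})
  have hXc : Continuous X := by
    rw [continuous_iff_continuousAt]
    intro θ₀
    have h1 := tendsto_ctr_pair hK hL (F := Filter.map v (𝓝 θ₀)) (a := q) (v₀ := v θ₀)
      (by rw [Filter.tendsto_map'_iff]; exact hvc.tendsto θ₀) (hli θ₀)
      (by rw [Filter.eventually_map]; exact Eventually.of_forall fun θ => (hgood θ).2.2)
      (hgood θ₀).2.2 (hgood θ₀).1 (hgood θ₀).2.1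
      ⟨-q, hneg, Submodule.neg_mem _ (hqS θ₀)⟩ ⟨q, interior_subset hqL, hqS θ₀⟩
    have h2 := h1.1
    rw [Filter.tendsto_map'_iff] at h2
    exact h2
  have hX : ∀ θ, Hom K L (Submodule.span ℝ {q, v θ}) (X θ) (rat K L (Submodule.span ℝ {q, v θ})) :=
    fun θ => ctr_spec (hgood θ).2.2
  let g : ℝ → ℝ := fun θ => ⟪v θ, X θ⟫
  have hgc : Continuous g := hvc.inner hXc
  have hgpi : g Real.pi = -g 0 := by
    have h1 : v Real.pi = -v 0 := by simp [v]
    have h2 : Submodule.span ℝ {q, v Real.pi} = Submodule.span ℝ {q, v 0} := by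
      rw [h1]
      apply le_antisymm
      · rw [Submodule.span_le]
        rintro y (rfl | rfl)
        · exact Submodule.subset_span (by simp)
        · exact Submodule.neg_mem _ (Submodule.subset_span (by simp))
      · rw [Submodule.span_le]
        rintro y (rfl | rfl)
        · exact Submodule.subset_span (by simp)
        · rw [SetLike.mem_coe, ← neg_neg (v 0)]
          exact Submodule.neg_mem _ (Submodule.subset_span (by simp))
    have h3 : X Real.pi = X 0 := by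
      show ctr K L _ = ctr K L _
      rw [h2]
    show ⟪v Real.pi, X Real.pi⟫ = -⟪v 0, X 0⟫
    rw [h3, h1, inner_neg_left]
  obtain ⟨θ, hθ⟩ : (0 : ℝ) ∈ range g := by
    rcases le_total (g 0) 0 with h0 | h0
    · exact mem_range_of_exists_le_of_exists_ge hgc ⟨0, h0⟩ ⟨Real.pi, by rw [hgpi]; linarith⟩
    · exact mem_range_of_exists_le_of_exists_ge hgc ⟨Real.pi, by rw [hgpi]; linarith⟩ ⟨0, h0⟩
  refine ⟨v θ, hvV θ, hvn θ, hqv θ, ?_⟩
  obtain ⟨α, β, hαβ⟩ := Submodule.mem_span_pair.1 (hX θ).1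
  have hβ : β = 0 := by
    have h1 : ⟪v θ, X θ⟫ = 0 := hθ
    rw [← hαβ, inner_add_right, inner_smul_right, inner_smul_right, real_inner_comm, hqv,
      real_inner_self_eq_norm_sq, hvn] at h1
    simpa using h1
  rw [hβ, zero_smul, add_zero] at hαβ
  exact ⟨α, _, hαβ ▸ hX θ⟩

theorem centred : CentredStmt := by
  intro E _ _ _ K L hU b hbL hbK hbU hnb V hV hbV hUV
  have hK := hU.hK
  have hL := hU.hL
  have hb0 : b ≠ 0 := (interior_subset hbL).1
  obtain ⟨q₀, hq₀U, hq₀V⟩ := hUV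
  set U : Set E := interior (Dir L \ Dir K) with hUdef
  have hUo : IsOpen U := isOpen_interior
  have hUsub : U ⊆ Dir L \ Dir K := interior_subset
  have hUL : U ⊆ Dir L := fun y hy => (hUsub hy).1
  have hUiL : U ⊆ interior (Dir L) := interior_mono sdiff_subset
  -- `b` is a limit of points of `U ∩ V`
  have hadd : ∀ t : ℝ, 0 < t → b + t • q₀ ∈ U := fun t ht =>
    hU.add q₀ hq₀U b (interior_subset hbL) hbK t ht
  -- the touched points, with centred planes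
  have hseq : ∀ n : ℕ, ∃ q v : E, q ∈ U ∧ q ∈ V ∧ dist q b < 1 / ((n : ℝ) + 1) ∧
      (∃ (m : E) (A ρ : ℝ), 0 < ρ ∧ (∀ h ∈ V, ‖h‖ < ρ →
        (rad L q)⁻¹ + ⟪m, h⟫ - A * ‖h‖ ^ 2 ≤ (rad L (q + h))⁻¹) ∧ ⟪m, q⟫ = (rad L q)⁻¹) ∧
      v ∈ V ∧ ‖v‖ = 1 ∧ ⟪q, v⟫ = 0 ∧ ∃ μ l : ℝ, Hom K L (Submodule.span ℝ {q, v}) (μ • q) l := by
    intro n
    have hn : (0 : ℝ) < 1 / ((n : ℝ) + 1) := by positivity
    have h1 : Tendsto (fun t : ℝ => b + t • q₀) (𝓝[>] 0) (𝓝 b) := by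
      have h2 : Tendsto (fun t : ℝ => b + t • q₀) (𝓝 0) (𝓝 (b + (0 : ℝ) • q₀)) :=
        (by fun_prop : Continuous fun t : ℝ => b + t • q₀).tendsto 0
      rw [zero_smul, add_zero] at h2
      exact h2.mono_left nhdsWithin_le_nhds
    obtain ⟨t, ht1, ht2⟩ := ((Metric.tendsto_nhds.1 h1 _ (half_pos hn)).and
      self_mem_nhdsWithin).exists
    have hzU := hadd t ht2
    have hzV : b + t • q₀ ∈ V := V.add_mem hbV (V.smul_mem _ hq₀V)
    obtain ⟨z, hzO, hzV', hzd, m, A, ρ, hρ, hm1, hm2⟩ := touch hL hUo hUL hzV hzU (half_pos hn)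
    obtain ⟨v, hvV, hvn, hzv, μ, l, hhom⟩ := centre hU.toCA hV hzV' (hUiL hzO) (hUsub hzO).2
    refine ⟨z, v, hzO, hzV', ?_, ⟨m, A, ρ, hρ, hm1, hm2⟩, hvV, hvn, hzv, μ, l, hhom⟩
    calc dist z b ≤ dist z (b + t • q₀) + dist (b + t • q₀) b := dist_triangle _ _ _
      _ < 1 / ((n : ℝ) + 1) / 2 + 1 / ((n : ℝ) + 1) / 2 := add_lt_add hzd ht1
      _ = 1 / ((n : ℝ) + 1) := by ring
  choose q v hqU hqV hqd htouch hvV hvn hqv μ l hhom using hseq
  have hqlim : Tendsto q atTop (𝓝 b) := by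
    rw [tendsto_iff_dist_tendsto_zero]
    exact squeeze_zero (fun _ => dist_nonneg) (fun n => (hqd n).le)
      tendsto_one_div_add_atTop_nhds_zero_nat
  -- a convergent subsequence of the `v n`
  obtain ⟨v₀, -, φ, hφ, hvlim⟩ := (isCompact_closedBall (0 : E) 1).tendsto_subseq
    (x := v) (fun n => by rw [Metric.mem_closedBall, dist_zero_right]; exact (hvn n).le)
  have hqlim' : Tendsto (q ∘ φ) atTop (𝓝 b) := hqlim.comp hφ.tendsto_atTop
  have hv₀n : ‖v₀‖ = 1 := by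
    have h1 : Tendsto (fun n => ‖(v ∘ φ) n‖) atTop (𝓝 ‖v₀‖) := hvlim.norm
    have h2 : (fun n => ‖(v ∘ φ) n‖) = fun _ => (1 : ℝ) := by
      ext n; exact hvn _
    rw [h2] at h1
    exact (tendsto_nhds_unique h1 tendsto_const_nhds)
  have hbv₀ : ⟪b, v₀⟫ = 0 := by
    have h1 : Tendsto (fun n => ⟪(q ∘ φ) n, (v ∘ φ) n⟫) atTop (𝓝 ⟪b, v₀⟫) := hqlim'.inner hvlim
    have h2 : (fun n => ⟪(q ∘ φ) n, (v ∘ φ) n⟫) = fun _ => (0 : ℝ) := by
      ext n; exact hqv _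
    rw [h2] at h1
    exact (tendsto_nhds_unique h1 tendsto_const_nhds)
  have hli : LinearIndependent ℝ ![b, v₀] := linInd_of_orth hb0 hv₀n hbv₀
  have hVc : IsClosed (V : Set E) := Submodule.closed_of_finiteDimensional V
  have hv₀V : v₀ ∈ V := hVc.mem_of_tendsto hvlim (Eventually.of_forall fun n => hvV _)
  set S : Submodule ℝ E := Submodule.span ℝ {b, v₀} with hS
  have hP : PConv (fun n => Submodule.span ℝ {(q ∘ φ) n, (v ∘ φ) n}) S :=
    pconv_pair hqlim' hvlim hli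
  have hbS : b ∈ S := Submodule.subset_span (by simp)
  have hSV : S ≤ V := by
    rw [hS, Submodule.span_le]
    rintro y (rfl | rfl)
    · exact hbV
    · exact hv₀V
  have hSrank : Module.finrank ℝ S = 2 := finrank_span_pair hli
  obtain ⟨hRK, hRL, x, l', hx⟩ := hU.good b hbL hbK S hSrank hbS
  have hnbS : (Dir K ∩ (S : Set E)).Nonempty := ⟨-b, interior_subset hnb, S.neg_mem hbS⟩
  have hbLS : (Dir L ∩ (S : Set E)).Nonempty := ⟨b, interior_subset hbL, hbS⟩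
  have hlimx := (tendsto_hom hK hL hP (x := fun n => μ (φ n) • q (φ n)) (l := fun n => l (φ n))
    (Eventually.of_forall fun n => hhom (φ n)) hRK hRL hnbS hbLS hx).1
  -- the limit is centred
  have hxc : ∃ c : ℝ, x = c • b := by
    have h1 : Tendsto (fun n => ⟪q (φ n), μ (φ n) • q (φ n)⟫) atTop (𝓝 ⟪b, x⟫) :=
      hqlim'.inner hlimx
    have h2 : Tendsto (fun n => ‖q (φ n)‖ ^ 2) atTop (𝓝 (‖b‖ ^ 2)) := (hqlim'.norm).pow 2
    have hb2 : ‖b‖ ^ 2 ≠ 0 := pow_ne_zero 2 (norm_ne_zero_iff.2 hb0)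
    have h3 : Tendsto (fun n => ⟪q (φ n), μ (φ n) • q (φ n)⟫ / ‖q (φ n)‖ ^ 2) atTop
        (𝓝 (⟪b, x⟫ / ‖b‖ ^ 2)) := h1.div h2 hb2
    have h4 : ∀ n, ⟪q (φ n), μ (φ n) • q (φ n)⟫ / ‖q (φ n)‖ ^ 2 = μ (φ n) := by
      intro n
      have hq0 : ‖q (φ n)‖ ≠ 0 := norm_ne_zero_iff.2 (hUL (hqU (φ n))).1
      rw [inner_smul_right, real_inner_self_eq_norm_sq]
      field_simp
    simp only [h4] at h3
    have h5 : Tendsto (fun n => μ (φ n) • q (φ n)) atTop (𝓝 ((⟪b, x⟫ / ‖b‖ ^ 2) • b)) :=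
      h3.smul hqlim'
    exact ⟨_, tendsto_nhds_unique hlimx h5⟩
  obtain ⟨c, rfl⟩ := hxc
  -- non-sharpness
  have hNS : ∀ e ∈ interior (Dir K), e ∈ S → b - e ∉ interior (Dir K) := by
    intro e he heS hbe
    obtain ⟨u, huS, hulim⟩ := hP.1 e heS
    have h1 : ∀ᶠ n in atTop, u n ∈ interior (Dir K) :=
      hulim.eventually (isOpen_interior.mem_nhds he)
    have h2 : ∀ᶠ n in atTop, q (φ n) - u n ∈ interior (Dir K) :=
      (hqlim'.sub hulim).eventually (isOpen_interior.mem_nhds hbe)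
    obtain ⟨n, hn1, hn2⟩ := (h1.and h2).exists
    obtain ⟨m, A, ρ, hρ, hm1, hm2⟩ := htouch (φ n)
    have hqS : q (φ n) ∈ Submodule.span ℝ {q (φ n), v (φ n)} := Submodule.subset_span (by simp)
    have hSV' : Submodule.span ℝ {q (φ n), v (φ n)} ≤ V := by
      rw [Submodule.span_le]
      rintro y (rfl | rfl)
      · exact hqV _
      · exact hvV _
    have h3 := nonsharp hK hL hSV' hqS (hUL (hqU (φ n))) (hUsub (hqU (φ n))).2 hρ hm1
      (hhom (φ n)) rfl (interior_subset hn1) (huS n)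
    have h4 := nonsharp hK hL hSV' hqS (hUL (hqU (φ n))) (hUsub (hqU (φ n))).2 hρ hm1
      (hhom (φ n)) rfl (interior_subset hn2) (Submodule.sub_mem _ hqS (huS n))
    rw [inner_sub_right] at h4
    have h5 : 0 < (rad L (q (φ n)))⁻¹ := inv_pos.2 (hL.rad_pos (hUL (hqU (φ n))))
    linarith
  refine ⟨S, hSV, hSrank, hbS, ?_, ⟨c, l', hx⟩, hNS⟩
  -- `S` avoids `U`
  intro q' hq'U hq'S
  -- `b - τ q'` is in the interior of `Dir K` for small `τ`
  have hlim1 : Tendsto (fun t : ℝ => b - t • q') (𝓝 0) (𝓝 (b - (0 : ℝ) • q')) :=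
    (by fun_prop : Continuous fun t : ℝ => b - t • q').tendsto 0
  have hlim2 : Tendsto (fun t : ℝ => -b + t • q') (𝓝 0) (𝓝 (-b + (0 : ℝ) • q')) :=
    (by fun_prop : Continuous fun t : ℝ => -b + t • q').tendsto 0
  rw [zero_smul, sub_zero] at hlim1
  rw [zero_smul, add_zero] at hlim2
  have hev : ∀ᶠ t in 𝓝[>] (0 : ℝ), b - t • q' ∈ interior (Dir L) ∧
      -b + t • q' ∈ interior (Dir K) :=
    nhdsWithin_le_nhds ((hlim1.eventually (isOpen_interior.mem_nhds hbL)).and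
      (hlim2.eventually (isOpen_interior.mem_nhds hnb)))
  obtain ⟨τ, ⟨h1, h2⟩, hτ⟩ := (hev.and self_mem_nhdsWithin).exists
  have hτ : 0 < τ := hτ
  have hev2 : ∀ᶠ t in 𝓝[>] (0 : ℝ), t < τ := nhdsWithin_le_nhds (gt_mem_nhds hτ)
  obtain ⟨σ, ⟨⟨h3, h4⟩, h5⟩, hσ⟩ := ((hev.and hev2).and self_mem_nhdsWithin).exists
  have hσ : 0 < σ := hσ
  -- points `b - t q'` with `t` small are in `Dir K`
  have hDK : ∀ t : ℝ, 0 < t → b - t • q' ∈ interior (Dir L) → b - t • q' ∈ Dir K := by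
    intro t ht hin
    by_contra hnot
    have h6 := hU.add q' hq'U (b - t • q') (interior_subset hin) hnot t ht
    rw [sub_add_cancel] at h6
    exact hbU h6
  -- move slightly down
  obtain ⟨ρ, ⟨⟨h7, -⟩, h8⟩, hρ⟩ := ((hev.and (nhdsWithin_le_nhds (gt_mem_nhds hσ) :
    ∀ᶠ t in 𝓝[>] (0 : ℝ), t < σ)).and self_mem_nhdsWithin).exists
  have hρ : 0 < ρ := hρ
  have h9 : b - σ • q' ∈ interior (Dir K) := by
    have h10 := hU.down _ (hDK ρ hρ h7) q' hq'U (σ - ρ) (by linarith)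
    have e : b - ρ • q' - (σ - ρ) • q' = b - σ • q' := by module
    rwa [e] at h10
  have hd : 0 < τ - σ := by linarith
  have h11 : (τ / (τ - σ)) • (b - σ • q') ∈ interior (Dir K) :=
    (smul_mem_interior_Dir (by positivity)).2 h9
  have h12 : (σ / (τ - σ)) • (-b + τ • q') ∈ interior (Dir K) :=
    (smul_mem_interior_Dir (by positivity)).2 h2
  refine hNS _ h11 (S.smul_mem _ (S.sub_mem hbS (S.smul_mem _ hq'S))) ?_
  have e : b - (τ / (τ - σ)) • (b - σ • q') = (σ / (τ - σ)) • (-b + τ • q') := by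
    have h13 : (1 : ℝ) - τ / (τ - σ) = -(σ / (τ - σ)) := by
      field_simp; ring
    have h14 : τ / (τ - σ) * σ = σ / (τ - σ) * τ := by ring
    calc b - (τ / (τ - σ)) • (b - σ • q')
        = (1 - τ / (τ - σ)) • b + (τ / (τ - σ) * σ) • q' := by module
      _ = (σ / (τ - σ)) • (-b + τ • q') := by rw [h13, h14]; module
  rw [e]
  exact h12

end Pool.Agent.H49.SB
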