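import Pool.Agent.H49.SB.P1

/-!
# Descent in the cases of equal directions (modules P2, P3)
-/

namespace Pool.Agent.H49.SB

open Set Filter Topology Pool.Agent.H63.SB
open scoped RealInnerProductSpace

variable {E : Type*} [NormedAddCommGroup E] [InnerProductSpace ℝ E]
variable {K L : Set E}

/-- Coordinates on a complement. -/
theorem exists_coord [FiniteDimensional ℝ E] (W : Submodule ℝ E)
    (h : Module.finrank ℝ W + 2 ≤ Module.finrank ℝ E) :
    ∃ (e f : E) (a b : E →ₗ[ℝ] ℝ), (∀ w ∈ W, a w = 0) ∧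
      (∀ w ∈ W, b w = 0) ∧ a e = 1 ∧ a f = 0 ∧ b e = 0 ∧ b f = 1 := by
  have h1 : 1 < Module.finrank ℝ (E ⧸ W) := by
    have := Submodule.finrank_quotient_add_finrank W
    omega
  have : Nontrivial (E ⧸ W) := Module.nontrivial_of_finrank_pos (R := ℝ) (by omega)
  obtain ⟨x, hx⟩ := exists_ne (0 : E ⧸ W)
  obtain ⟨y, hxy⟩ := exists_linearIndependent_pair_of_one_lt_finrank (R := ℝ) h1 hx
  obtain ⟨e, rfl⟩ := W.mkQ_surjective x
  obtain ⟨f, rfl⟩ := W.mkQ_surjective y
  let F : ℝ × ℝ →ₗ[ℝ] (E ⧸ W) :=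
    (LinearMap.toSpanSingleton ℝ (E ⧸ W) (W.mkQ e)).coprod
      (LinearMap.toSpanSingleton ℝ (E ⧸ W) (W.mkQ f))
  have hF : ∀ p : ℝ × ℝ, F p = W.mkQ (p.1 • e + p.2 • f) := by
    intro p
    simp [F]
  have hker : LinearMap.ker F = ⊥ := by
    rw [LinearMap.ker_eq_bot']
    intro p hp
    rw [hF, map_add, map_smul, map_smul] at hp
    obtain ⟨h1, h2⟩ := LinearIndependent.pair_iff.1 hxy _ _ hp
    exact Prod.ext h1 h2
  obtain ⟨r, hr⟩ := F.exists_leftInverse_of_injective hker
  have hr' : ∀ p : ℝ × ℝ, r (W.mkQ (p.1 • e + p.2 • f)) = p := by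
    intro p
    rw [← hF]
    exact LinearMap.congr_fun hr p
  have he := hr' (1, 0)
  have hf := hr' (0, 1)
  simp only [one_smul, zero_smul, add_zero, zero_add] at he hf
  refine ⟨e, f, (LinearMap.fst ℝ ℝ ℝ) ∘ₗ r ∘ₗ W.mkQ, (LinearMap.snd ℝ ℝ ℝ) ∘ₗ r ∘ₗ W.mkQ,
    ?_, ?_, ?_, ?_, ?_, ?_⟩
  · intro w hw
    have : W.mkQ w = 0 := by
      rw [Submodule.mkQ_apply, Submodule.Quotient.mk_eq_zero]; exact hw
    simp only [LinearMap.comp_apply, this, map_zero]
  · intro w hw
    have : W.mkQ w = 0 := by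
      rw [Submodule.mkQ_apply, Submodule.Quotient.mk_eq_zero]; exact hw
    simp only [LinearMap.comp_apply, this, map_zero]
  · simp only [LinearMap.comp_apply, he, LinearMap.fst_apply]
  · simp only [LinearMap.comp_apply, hf, LinearMap.fst_apply]
  · simp only [LinearMap.comp_apply, he, LinearMap.snd_apply]
  · simp only [LinearMap.comp_apply, hf, LinearMap.snd_apply]

theorem indep_of_det {W : Submodule ℝ E} {a b : E →ₗ[ℝ] ℝ} (ha : ∀ w ∈ W, a w = 0)
    (hb : ∀ w ∈ W, b w = 0) {e f : E} (hdet : a e * b f - a f * b e ≠ 0) (s t : ℝ)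
    (h : s • e + t • f ∈ W) : s = 0 ∧ t = 0 := by
  have h1 := ha _ h
  have h2 := hb _ h
  rw [map_add, map_smul, map_smul, smul_eq_mul, smul_eq_mul] at h1 h2
  constructor
  · have : s * (a e * b f - a f * b e) = 0 := by linear_combination b f * h1 - a f * h2
    exact (mul_eq_zero.1 this).resolve_right hdet
  · have : t * (a e * b f - a f * b e) = 0 := by linear_combination a e * h2 - b e * h1
    exact (mul_eq_zero.1 this).resolve_right hdet

theorem finrank_sup_span [FiniteDimensional ℝ E] {W : Submodule ℝ E} {v : E} (hv : v ∉ W) :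
    Module.finrank ℝ (W ⊔ Submodule.span ℝ {v} : Submodule ℝ E) = Module.finrank ℝ W + 1 := by
  have hv0 : v ≠ 0 := fun h => hv (by rw [h]; exact W.zero_mem)
  have h1 := Submodule.finrank_sup_add_finrank_inf_eq W (Submodule.span ℝ {v})
  have h2 : W ⊓ Submodule.span ℝ {v} = ⊥ := by
    rw [eq_bot_iff]
    rintro p ⟨hp1, hp2⟩
    obtain ⟨a, rfl⟩ := Submodule.mem_span_singleton.1 hp2
    by_cases ha : a = 0
    · simp [ha]
    · exact absurd ((W.smul_mem_iff ha).1 hp1) hv
  rw [h2, finrank_bot, finrank_span_singleton hv0] at h1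
  omega

theorem cos_sin_ne (θ : ℝ) : Real.cos θ ≠ 0 ∨ Real.sin θ ≠ 0 := by
  by_contra h
  push Not at h
  have := Real.sin_sq_add_cos_sq θ
  rw [h.1, h.2] at this
  norm_num at this

theorem pencil_notMem {W : Submodule ℝ E} {e f : E}
    (hef : ∀ s t : ℝ, s • e + t • f ∈ W → s = 0 ∧ t = 0) (θ : ℝ) :
    Real.cos θ • e + Real.sin θ • f ∉ W := by
  intro h
  obtain ⟨h1, h2⟩ := hef _ _ h
  rcases cos_sin_ne θ with h3 | h3
  · exact h3 h1
  · exact h3 h2

theorem descSame : DescSameStmt := by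
  intro E _ _ _ K L hK hL hD j hj hall W hW
  by_cases hne : (Dir K ∩ (W : Set E)).Nonempty
  swap
  · refine ⟨0, 1, W.zero_mem, one_pos, fun z hz => ?_⟩
    rw [one_smul, zero_add]
    by_cases hz0 : z = 0
    · subst hz0
      exact ⟨fun _ => hL.zero_mem, fun _ => hK.zero_mem⟩
    · constructor
      · intro h
        exact absurd ⟨z, mem_Dir h hz0, hz⟩ hne
      · intro h
        exact absurd ⟨z, hD ▸ mem_Dir h hz0, hz⟩ hne
  obtain ⟨e, f, a, b, ha, hb, hae, haf, hbe, hbf⟩ := exists_coord W (by rw [hW]; exact hj)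
  have hef : ∀ s t : ℝ, s • e + t • f ∈ W → s = 0 ∧ t = 0 :=
    indep_of_det ha hb (by rw [hae, haf, hbe, hbf]; norm_num)
  refine pencil E K L hK hL W e f hef hne (by rw [← hD]; exact hne) ?_ ?_
  · intro θ
    apply hall
    rw [finrank_sup_span (pencil_notMem hef θ), hW]
  · intro θ
    apply subset_closure
    intro p hp _ hpD
    have hpK : p ∈ Dir K := by
      rcases hpD with h | h
      · exact h
      · rw [hD]; exact h
    exact subset_closure ⟨⟨hpK, hD ▸ hpK⟩, hp⟩

theorem descInt : DescIntStmt := by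
  intro E _ _ _ K L hK hL hD j hj hall W hW hne
  have : CompleteSpace E := FiniteDimensional.complete ℝ E
  obtain ⟨e₀, f₀, a, b, ha, hb, hae, haf, hbe, hbf⟩ := exists_coord W (by rw [hW]; exact hj)
  have hacont : Continuous a := a.continuous_of_finiteDimensional
  have hbcont : Continuous b := b.continuous_of_finiteDimensional
  -- the residual property
  have hres : ∀ᶠ v : E in residual E,
      ∀ p ∈ W ⊔ Submodule.span ℝ {v}, p ∉ W → (p ∈ Dir K ∨ p ∈ Dir L) →
        p ∈ closure (Dir K ∩ Dir L ∩ (W ⊔ Submodule.span ℝ {v} : Submodule ℝ E)) := by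
    filter_upwards [residual_sup hK W, residual_sup hL W] with v hvK hvL p hp hpW hpD
    have hsub : interior (Dir K) ∩ ((W ⊔ Submodule.span ℝ {v} : Submodule ℝ E) : Set E) ⊆
        Dir K ∩ Dir L ∩ ((W ⊔ Submodule.span ℝ {v} : Submodule ℝ E) : Set E) := by
      rintro q ⟨hq1, hq2⟩
      exact ⟨⟨interior_subset hq1, interior_subset (hD ▸ hq1)⟩, hq2⟩
    rcases hpD with h | h
    · exact closure_mono hsub (hvK p h hp hpW)
    · have := hvL p h hp hpW
      rw [← hD] at this
      exact closure_mono hsub this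
  have hres2 : ∀ᶠ q : E × E in residual (E × E), ∀ r : ℚ,
      ∀ p ∈ W ⊔ Submodule.span ℝ {Real.cos r • q.1 + Real.sin r • q.2}, p ∉ W →
        (p ∈ Dir K ∨ p ∈ Dir L) → p ∈ closure (Dir K ∩ Dir L ∩
          (W ⊔ Submodule.span ℝ {Real.cos r • q.1 + Real.sin r • q.2} : Submodule ℝ E)) := by
    rw [eventually_countable_forall]
    intro r
    have hcont : Continuous fun q : E × E => Real.cos r • q.1 + Real.sin r • q.2 := by fun_prop
    have hopen : IsOpenMap fun q : E × E => Real.cos r • q.1 + Real.sin r • q.2 := by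
      let F : E × E →ₗ[ℝ] E := (Real.cos r • LinearMap.id).coprod (Real.sin r • LinearMap.id)
      have hF : Function.Surjective F := by
        intro y
        rcases cos_sin_ne r with h | h
        · exact ⟨((Real.cos r)⁻¹ • y, 0), by simp [F, smul_smul, h]⟩
        · exact ⟨(0, (Real.sin r)⁻¹ • y), by simp [F, smul_smul, h]⟩
      have := LinearMap.isOpenMap_of_finiteDimensional F hF
      have e : (fun q : E × E => Real.cos r • q.1 + Real.sin r • q.2) = F := by
        ext q; simp [F]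
      rw [e]
      exact this
    exact (tendsto_residual_of_isOpenMap hcont hopen).eventually hres
  have hopenDet : IsOpen {q : E × E | a q.1 * b q.2 - a q.2 * b q.1 ≠ 0} := by
    apply isOpen_ne.preimage
    exact ((hacont.comp continuous_fst).mul (hbcont.comp continuous_snd)).sub
      ((hacont.comp continuous_snd).mul (hbcont.comp continuous_fst))
  have hneDet : ({q : E × E | a q.1 * b q.2 - a q.2 * b q.1 ≠ 0}).Nonempty :=
    ⟨(e₀, f₀), by show a e₀ * b f₀ - a f₀ * b e₀ ≠ 0; rw [hae, haf, hbe, hbf]; norm_num⟩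
  obtain ⟨⟨e, f⟩, hdet, hq⟩ := (dense_of_mem_residual hres2).inter_open_nonempty _ hopenDet hneDet
  have hef : ∀ s t : ℝ, s • e + t • f ∈ W → s = 0 ∧ t = 0 := indep_of_det ha hb hdet
  have hneK : (Dir K ∩ (W : Set E)).Nonempty := hne.mono (inter_subset_inter_left _ interior_subset)
  have hneL : (Dir L ∩ (W : Set E)).Nonempty := by
    rw [hD] at hne
    exact hne.mono (inter_subset_inter_left _ interior_subset)
  refine pencil E K L hK hL W e f hef hneK hneL ?_ ?_
  · intro θ
    apply hall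
    · rw [finrank_sup_span (pencil_notMem hef θ), hW]
    · obtain ⟨p, hp1, hp2⟩ := hne
      exact ⟨p, hp1, Submodule.mem_sup_left hp2⟩
  · refine (Rat.denseRange_cast (𝕜 := ℝ)).mono ?_
    rintro _ ⟨r, rfl⟩
    exact hq r

end Pool.Agent.H49.SB
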