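import Pool.Agent.H49.SB.A5
import Pool.Agent.H49.SB.P23

/-!
# The boundary of the cone `U` (module A6)
-/

namespace Pool.Agent.H49.SB

open Set Filter Topology Pool.Agent.H63.SB
open scoped RealInnerProductSpace

/-- A boundary point of an open set near a given one, with an inner ball. -/
theorem exists_smooth {E : Type*} [NormedAddCommGroup E] [InnerProductSpace ℝ E]
    [FiniteDimensional ℝ E] {U : Set E} (hU : IsOpen U) {b₀ : E} (hb₀ : b₀ ∈ closure U)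
    (hb₀' : b₀ ∉ U) {ε : ℝ} (hε : 0 < ε) :
    ∃ b p : E, dist b b₀ < ε ∧ b ∉ U ∧ p ∈ U ∧ Metric.ball p (dist p b) ⊆ U := by
  have hC : IsCompact (Metric.closedBall b₀ (ε / 2) ∩ Uᶜ) :=
    (isCompact_closedBall b₀ (ε / 2)).inter_right hU.isClosed_compl
  have hb₀C : b₀ ∈ Metric.closedBall b₀ (ε / 2) ∩ Uᶜ :=
    ⟨Metric.mem_closedBall_self (by positivity), hb₀'⟩
  obtain ⟨p, hpU, hpd⟩ := Metric.mem_closure_iff.1 hb₀ (ε / 8) (by positivity)
  obtain ⟨b, hbC, hb⟩ := hC.exists_infDist_eq_dist ⟨b₀, hb₀C⟩ p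
  have hmin : ∀ y ∈ Metric.closedBall b₀ (ε / 2) ∩ Uᶜ, dist p b ≤ dist p y := by
    intro y hy
    rw [← hb]
    exact Metric.infDist_le_dist_of_mem hy
  have h1 : dist p b < ε / 8 := lt_of_le_of_lt (hmin b₀ hb₀C) (by rwa [dist_comm])
  refine ⟨b, p, ?_, hbC.2, hpU, ?_⟩
  · calc dist b b₀ ≤ dist b p + dist p b₀ := dist_triangle _ _ _
      _ < ε / 8 + ε / 8 := add_lt_add (by rwa [dist_comm]) (by rwa [dist_comm])
      _ < ε := by linarith
  · intro y hy
    by_contra hyU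
    have h2 : dist y b₀ ≤ ε / 2 := by
      calc dist y b₀ ≤ dist y p + dist p b₀ := dist_triangle _ _ _
        _ ≤ ε / 8 + ε / 8 := add_le_add (by rw [Metric.mem_ball] at hy; linarith)
            (by rw [dist_comm]; exact hpd.le)
        _ ≤ ε / 2 := by linarith
    have h3 := hmin y ⟨h2, hyU⟩
    rw [Metric.mem_ball, dist_comm] at hy
    linarith

variable {E : Type} [NormedAddCommGroup E] [InnerProductSpace ℝ E] [FiniteDimensional ℝ E]
variable {K L : Set E}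

/-- Data at a smooth boundary point of `U`. -/
structure Smooth (K L : Set E) (b m : E) : Prop where
  notMem : b ∉ interior (Dir L \ Dir K)
  ne : m ≠ 0
  orth : ⟪m, b⟫ = 0
  pos : ∀ u ∈ interior (Dir L \ Dir K), 0 < ⟪m, u⟫
  near : ∀ v : E, 0 < ⟪m, v⟫ → ∃ δ : ℝ, 0 < δ ∧ b + δ • v ∈ interior (Dir L \ Dir K)
  cl : b ∈ closure (interior (Dir L \ Dir K))

omit [FiniteDimensional ℝ E] in
theorem smul_mem_U {q : E} (hq : q ∈ interior (Dir L \ Dir K)) {t : ℝ} (ht : 0 < t) :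
    t • q ∈ interior (Dir L \ Dir K) := by
  have hcone : (Homeomorph.smulOfNeZero t ht.ne' : E ≃ₜ E) ⁻¹' (Dir L \ Dir K) =
      Dir L \ Dir K := by
    ext z
    show t • z ∈ Dir L \ Dir K ↔ z ∈ Dir L \ Dir K
    rw [Set.mem_sdiff, Set.mem_sdiff, smul_mem_Dir ht, smul_mem_Dir ht]
  have h := (Homeomorph.smulOfNeZero t ht.ne' : E ≃ₜ E).preimage_interior (Dir L \ Dir K)
  rw [hcone] at h
  exact (Set.ext_iff.1 h q).2 hq

omit [FiniteDimensional ℝ E] in
theorem smooth_of_ball (hU : UC K L) {b p : E} (hb0 : b ≠ 0)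
    (hb : b ∉ interior (Dir L \ Dir K)) (hp : p ∈ interior (Dir L \ Dir K))
    (hball : Metric.ball p (dist p b) ⊆ interior (Dir L \ Dir K)) : Smooth K L b (p - b) := by
  set U : Set E := interior (Dir L \ Dir K) with hUdef
  have hpb : p ≠ b := fun h => hb (h ▸ hp)
  have hm0 : p - b ≠ 0 := sub_ne_zero.2 hpb
  -- scaled points
  have htb : ∀ t : ℝ, 0 < t → ‖p - b‖ ^ 2 ≤ ‖p - t • b‖ ^ 2 := by
    intro t ht
    have h1 : t • b ∉ U := by
      intro h
      have := smul_mem_U h (inv_pos.2 ht)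
      rw [smul_smul, inv_mul_cancel₀ ht.ne', one_smul] at this
      exact hb this
    have h2 : ¬ dist (t • b) p < dist p b := fun h => h1 (hball h)
    push Not at h2
    rw [dist_comm, dist_eq_norm, dist_comm, dist_eq_norm] at h2
    rw [norm_sub_rev b p] at h2
    gcongr
  have hnear : ∀ v : E, 0 < ⟪p - b, v⟫ → ∀ᶠ δ : ℝ in 𝓝[>] 0, b + δ • v ∈ U := by
    intro v hv
    have h1 : Tendsto (fun δ : ℝ => -(2 * ⟪p - b, v⟫) + δ * ‖v‖ ^ 2) (𝓝 0)
        (𝓝 (-(2 * ⟪p - b, v⟫) + 0 * ‖v‖ ^ 2)) :=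
      (by fun_prop : Continuous fun δ : ℝ => -(2 * ⟪p - b, v⟫) + δ * ‖v‖ ^ 2).tendsto 0
    have h2 : ∀ᶠ δ : ℝ in 𝓝[>] 0, -(2 * ⟪p - b, v⟫) + δ * ‖v‖ ^ 2 < 0 :=
      nhdsWithin_le_nhds (h1.eventually (gt_mem_nhds (by linarith)))
    filter_upwards [h2, self_mem_nhdsWithin] with δ hδ1 hδ0
    have hδ0 : 0 < δ := hδ0
    apply hball
    rw [Metric.mem_ball, dist_comm, dist_eq_norm, dist_eq_norm]
    have h3 : p - (b + δ • v) = (p - b) - δ • v := by module
    rw [h3]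
    apply lt_of_pow_lt_pow_left₀ 2 (norm_nonneg _)
    rw [norm_sub_sq_real, inner_smul_right, norm_smul, mul_pow, Real.norm_eq_abs, sq_abs]
    nlinarith
  have horth : ⟪p - b, b⟫ = 0 := by
    by_contra h0
    -- move along `b`
    have h1 : ∀ s : ℝ, -1 < s → s * ⟪p - b, b⟫ * 2 ≤ s ^ 2 * ‖b‖ ^ 2 := by
      intro s hs
      have h2 := htb (1 + s) (by linarith)
      have h3 : p - (1 + s) • b = (p - b) - s • b := by module
      rw [h3, norm_sub_sq_real (p - b) (s • b), inner_smul_right, norm_smul, mul_pow,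
        Real.norm_eq_abs, sq_abs] at h2
      linarith
    have hb2 : 0 < ‖b‖ ^ 2 := by positivity
    set c := ⟪p - b, b⟫ with hc
    set s : ℝ := max (-1 / 2) (min 1 (c / ‖b‖ ^ 2)) with hs
    rcases lt_or_gt_of_ne h0 with hneg | hpos
    · have e : min 1 (c / ‖b‖ ^ 2) = c / ‖b‖ ^ 2 :=
        min_eq_right (le_trans (div_neg_of_neg_of_pos hneg hb2).le zero_le_one)
      rcases le_total (-1 / 2) (c / ‖b‖ ^ 2) with h2 | h2
      · have h3 := h1 (c / ‖b‖ ^ 2) (by linarith)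
        have h4 : c / ‖b‖ ^ 2 * c * 2 = 2 * (c ^ 2 / ‖b‖ ^ 2) := by ring
        have h5 : (c / ‖b‖ ^ 2) ^ 2 * ‖b‖ ^ 2 = c ^ 2 / ‖b‖ ^ 2 := by field_simp
        have h6 : 0 < c ^ 2 / ‖b‖ ^ 2 := by positivity
        rw [h4, h5] at h3
        linarith
      · have h3 := h1 (-1 / 2) (by norm_num)
        have h4 : c ≤ -1 / 2 * ‖b‖ ^ 2 := by rwa [div_le_iff₀ hb2] at h2
        nlinarith
    · have h3 := h1 (c / ‖b‖ ^ 2) (by
        have : 0 < c / ‖b‖ ^ 2 := by positivity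
        linarith)
      have h4 : c / ‖b‖ ^ 2 * c * 2 = 2 * (c ^ 2 / ‖b‖ ^ 2) := by ring
      have h5 : (c / ‖b‖ ^ 2) ^ 2 * ‖b‖ ^ 2 = c ^ 2 / ‖b‖ ^ 2 := by field_simp
      have h6 : 0 < c ^ 2 / ‖b‖ ^ 2 := by positivity
      rw [h4, h5] at h3
      linarith
  have hadd : ∀ q ∈ U, ∀ q' ∈ U, ∀ t : ℝ, 0 < t → q' + t • q ∈ U := by
    intro q hq q' hq' t ht
    exact hU.add q hq q' (interior_subset hq').1 (interior_subset hq').2 t ht
  have hpos' : ∀ u ∈ U, 0 ≤ ⟪p - b, u⟫ := by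
    intro u hu
    by_contra hneg
    push Not at hneg
    obtain ⟨δ, hδ1, hδ0⟩ := ((hnear (-u) (by rw [inner_neg_right]; linarith)).and
      self_mem_nhdsWithin).exists
    have h1 := hadd u hu _ hδ1 δ hδ0
    have e : b + δ • -u + δ • u = b := by module
    rw [e] at h1
    exact hb h1
  refine ⟨hb, hm0, horth, ?_, ?_, ?_⟩
  · intro u hu
    have h1 : Tendsto (fun η : ℝ => u - η • (p - b)) (𝓝 0) (𝓝 (u - (0 : ℝ) • (p - b))) :=
      (by fun_prop : Continuous fun η : ℝ => u - η • (p - b)).tendsto 0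
    rw [zero_smul, sub_zero] at h1
    have h2 : ∀ᶠ η : ℝ in 𝓝[>] 0, u - η • (p - b) ∈ U :=
      nhdsWithin_le_nhds (h1.eventually (isOpen_interior.mem_nhds hu))
    obtain ⟨η, hη1, hη0⟩ := (h2.and self_mem_nhdsWithin).exists
    have hη0 : 0 < η := hη0
    have h3 := hpos' _ hη1
    rw [inner_sub_right, inner_smul_right, real_inner_self_eq_norm_sq] at h3
    have h4 : 0 < η * ‖p - b‖ ^ 2 := by positivity
    linarith
  · intro v hv
    obtain ⟨δ, hδ1, hδ0⟩ := ((hnear v hv).and self_mem_nhdsWithin).exists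
    exact ⟨δ, hδ0, hδ1⟩
  · have hv : 0 < ⟪p - b, p - b⟫ := by
      rw [real_inner_self_eq_norm_sq]; positivity
    have h1 : Tendsto (fun η : ℝ => b + η • (p - b)) (𝓝[>] 0) (𝓝 b) := by
      have h1 : Tendsto (fun η : ℝ => b + η • (p - b)) (𝓝 0) (𝓝 (b + (0 : ℝ) • (p - b))) :=
        (by fun_prop : Continuous fun η : ℝ => b + η • (p - b)).tendsto 0
      rw [zero_smul, add_zero] at h1
      exact h1.mono_left nhdsWithin_le_nhds
    exact mem_closure_of_tendsto h1 (hnear _ hv)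

theorem exists_smooth_near (hU : UC K L) {b₀ : E} (hcl : b₀ ∈ closure (interior (Dir L \ Dir K)))
    (hnot : b₀ ∉ interior (Dir L \ Dir K)) (hb₀ : b₀ ≠ 0) {ε : ℝ} (hε : 0 < ε) :
    ∃ b m : E, dist b b₀ < ε ∧ Smooth K L b m := by
  have hε' : 0 < min ε ‖b₀‖ := lt_min hε (norm_pos_iff.2 hb₀)
  obtain ⟨b, p, hd, hb, hp, hball⟩ := exists_smooth isOpen_interior hcl hnot hε'
  have hb0 : b ≠ 0 := by
    rintro rfl
    rw [dist_zero_left] at hd
    exact absurd hd (not_lt.2 (min_le_right _ _))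
  exact ⟨b, p - b, lt_of_lt_of_le hd (min_le_left _ _), smooth_of_ball hU hb0 hb hp hball⟩

omit [FiniteDimensional ℝ E] in
theorem Smooth.plane {b m : E} (hs : Smooth K L b m) {v : E} (hv : ⟪m, v⟫ ≠ 0) :
    ∃ δ : ℝ, b + δ • v ∈ interior (Dir L \ Dir K) := by
  rcases lt_or_gt_of_ne hv with h | h
  · obtain ⟨δ, -, hδ⟩ := hs.near (-v) (by rw [inner_neg_right]; linarith)
    exact ⟨-δ, by rwa [neg_smul, ← smul_neg]⟩
  · obtain ⟨δ, -, hδ⟩ := hs.near v h
    exact ⟨δ, hδ⟩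

theorem wall_pos (hW : WallStmt) (hU : UC K L) {b m : E} (hs : Smooth K L b m) (hb : b ∈ Dir K) :
    ∃ (x : E) (l : ℝ), Hom K L ⊤ x l := by
  refine hW E K L hU b hb ?_ m hs.ne hs.orth hs.pos ?_
  · intro hbi
    obtain ⟨u, hu1, hu2⟩ := mem_closure_iff.1 hs.cl _ isOpen_interior hbi
    exact (interior_subset hu2).2 (interior_subset hu1)
  · intro v hv
    obtain ⟨δ, hδ⟩ := hs.plane hv
    exact ⟨_, hδ, Submodule.mem_span_pair.2 ⟨1, δ, by rw [one_smul]⟩⟩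

theorem wall_neg (hW : WallStmt) (hU : UC K L) {b m : E} (hs : Smooth K L b m) (hb : -b ∈ Dir K)
    (hb' : -b ∉ interior (Dir K)) : ∃ (x : E) (l : ℝ), Hom K L ⊤ x l := by
  refine hW E K L hU (-b) hb hb' m hs.ne (by rw [inner_neg_right, hs.orth, neg_zero]) hs.pos ?_
  intro v hv
  obtain ⟨δ, hδ⟩ := hs.plane hv
  exact ⟨_, hδ, Submodule.mem_span_pair.2 ⟨-1, δ, by rw [neg_smul, one_smul, neg_neg]⟩⟩

/-- Either the bodies are homothetic or there are no walls of `K` inside `Dir L`. -/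
theorem no_wall (hW : WallStmt) (hU : UC K L) (hno : ¬ ∃ (x : E) (l : ℝ), Hom K L ⊤ x l) :
    ∀ a ∈ interior (Dir L), a ∈ Dir K → a ∈ interior (Dir K) := by
  intro a haL haK
  by_contra hai
  obtain ⟨ε₁, hε₁, hloc⟩ := hU.hK.loc_closed haK
  obtain ⟨ε₂, hε₂, hball⟩ := Metric.isOpen_iff.1 isOpen_interior a haL
  set ε := min ε₁ ε₂ with hε
  have hε0 : 0 < ε := lt_min hε₁ hε₂
  -- off `Dir K` we are in `U`
  have hoff : ∀ y ∈ Metric.ball a ε, y ∉ Dir K → y ∈ interior (Dir L \ Dir K) := by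
    intro y hy hyK
    have h1 : y ∉ closure (Dir K) := fun h =>
      hyK (hloc y (Metric.ball_subset_ball (min_le_left _ _) hy) h)
    have h2 : IsOpen (Metric.ball a ε ∩ (closure (Dir K))ᶜ) :=
      Metric.isOpen_ball.inter isClosed_closure.isOpen_compl
    refine interior_maximal ?_ h2 ⟨hy, h1⟩
    rintro z ⟨hz1, hz2⟩
    exact ⟨interior_subset (hball (Metric.ball_subset_ball (min_le_right _ _) hz1)),
      fun h => hz2 (subset_closure h)⟩
  have hacl : a ∈ closure (interior (Dir L \ Dir K)) := by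
    rw [Metric.mem_closure_iff]
    intro δ hδ
    by_contra hcon
    push Not at hcon
    apply hai
    rw [mem_interior_iff_mem_nhds]
    filter_upwards [Metric.ball_mem_nhds a (lt_min hδ hε0)] with y hy
    by_contra hyK
    have h1 := hcon y (hoff y (Metric.ball_subset_ball (min_le_right _ _) hy) hyK)
    have h2 := Metric.ball_subset_ball (min_le_left _ _) hy
    rw [Metric.mem_ball, dist_comm] at h2
    linarith
  have hanot : a ∉ interior (Dir L \ Dir K) := fun h => (interior_subset h).2 haK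
  obtain ⟨b, m, hd, hs⟩ := exists_smooth_near hU hacl hanot haK.1 hε0
  have hbK : b ∈ Dir K := by
    by_contra h
    exact hs.notMem (hoff b hd h)
  exact hno (wall_pos hW hU hs hbK)

theorem exists_three {b q : E} (hb : b ≠ 0) (hq : q ∉ Submodule.span ℝ {b})
    (hdim : 3 ≤ Module.finrank ℝ E) :
    ∃ V : Submodule ℝ E, Module.finrank ℝ V = 3 ∧ b ∈ V ∧ q ∈ V := by
  have h1 : Module.finrank ℝ (Submodule.span ℝ {b} ⊔ Submodule.span ℝ {q} : Submodule ℝ E) = 2 := by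
    rw [finrank_sup_span hq, finrank_span_singleton hb]
  have h2 : ∃ w : E, w ∉ Submodule.span ℝ {b} ⊔ Submodule.span ℝ {q} := by
    by_contra hcon
    push Not at hcon
    have h3 : Submodule.span ℝ {b} ⊔ Submodule.span ℝ {q} = (⊤ : Submodule ℝ E) :=
      Submodule.eq_top_iff'.2 hcon
    rw [h3, finrank_top] at h1
    omega
  obtain ⟨w, hw⟩ := h2
  refine ⟨Submodule.span ℝ {b} ⊔ Submodule.span ℝ {q} ⊔ Submodule.span ℝ {w}, ?_, ?_, ?_⟩
  · rw [finrank_sup_span hw, h1]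
  · exact Submodule.mem_sup_left (Submodule.mem_sup_left (Submodule.mem_span_singleton_self b))
  · exact Submodule.mem_sup_left (Submodule.mem_sup_right (Submodule.mem_span_singleton_self q))

theorem bdry (hW : WallStmt) : BdryStmt := by
  intro E _ _ _ K L hU
  by_cases hno : ∃ (x : E) (l : ℝ), Hom K L ⊤ x l
  · exact Or.inl hno
  right
  intro b₀ hb₀L hb₀cl
  by_contra hb₀U
  exfalso
  have hK := hU.hK
  have hL := hU.hL
  have hnw := no_wall hW hU hno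
  obtain ⟨ε₀, hε₀, hball⟩ := Metric.isOpen_iff.1 isOpen_interior b₀ hb₀L
  obtain ⟨b, m, hd, hs⟩ := exists_smooth_near hU hb₀cl hb₀U (interior_subset hb₀L).1 hε₀
  have hbL : b ∈ interior (Dir L) := hball hd
  have hbK : b ∉ Dir K := fun h => hno (wall_pos hW hU hs h)
  have hnbK : -b ∈ Dir K := hU.neg b hbL hbK
  have hnb : -b ∈ interior (Dir K) := by
    by_contra h
    exact hno (wall_neg hW hU hs hnbK h)
  have hb0 : b ≠ 0 := (interior_subset hbL).1
  obtain ⟨q₀, hq₀⟩ := hU.nonempty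
  have hmq₀ : 0 < ⟪m, q₀⟫ := hs.pos q₀ hq₀
  have hq₀b : q₀ ∉ Submodule.span ℝ {b} := by
    intro h
    obtain ⟨c, rfl⟩ := Submodule.mem_span_singleton.1 h
    rw [inner_smul_right, hs.orth, mul_zero] at hmq₀
    exact lt_irrefl _ hmq₀
  obtain ⟨V, hV, hbV, hq₀V⟩ := exists_three hb0 hq₀b hU.dim
  obtain ⟨S, hSV, hSr, hbS, hSU, ⟨c, l, hom⟩, hNS⟩ := centred E K L hU b hbL hbK hs.notMem hnb V hV
    hbV ⟨q₀, hq₀, hq₀V⟩
  have hmM : ∀ y : E, y ∈ (Submodule.span ℝ {m})ᗮ ↔ ⟪m, y⟫ = 0 := fun y =>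
    Submodule.mem_orthogonal_singleton_iff_inner_right
  have hSm : S ≤ V ⊓ (Submodule.span ℝ {m})ᗮ := by
    intro v hv
    refine ⟨hSV hv, (hmM v).2 ?_⟩
    by_contra h
    obtain ⟨δ, hδ⟩ := hs.plane h
    exact hSU _ hδ (S.add_mem hbS (S.smul_mem _ hv))
  have hTr : Module.finrank ℝ (V ⊓ (Submodule.span ℝ {m})ᗮ : Submodule ℝ E) < 3 := by
    rw [← hV]
    apply Submodule.finrank_lt_finrank_of_lt
    refine lt_of_le_of_ne inf_le_left fun h => ?_
    have h1 : q₀ ∈ V ⊓ (Submodule.span ℝ {m})ᗮ := by rw [h]; exact hq₀V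
    exact hmq₀.ne' ((hmM q₀).1 h1.2)
  have hST : S = V ⊓ (Submodule.span ℝ {m})ᗮ := by
    apply Submodule.eq_of_le_of_finrank_le hSm
    omega
  -- points of `S` near `b`
  obtain ⟨ε, hε, hnear⟩ : ∃ ε : ℝ, 0 < ε ∧ ∀ z ∈ S, dist z b < ε →
      z ∈ interior (Dir L) ∧ z ∉ Dir K ∧ -z ∈ interior (Dir K) := by
    have h1 : ∀ᶠ z : E in 𝓝 b, z ∈ interior (Dir L) := isOpen_interior.mem_nhds hbL
    have h2 : ∀ᶠ z : E in 𝓝 b, -z ∈ interior (Dir K) :=
      (continuous_neg.tendsto b).eventually (isOpen_interior.mem_nhds hnb)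
    have h3 : ∀ᶠ z : E in 𝓝 b, (1 / 2 : ℝ) • b - z ∈ interior (Dir K) := by
      have h4 : (1 / 2 : ℝ) • b - b ∈ interior (Dir K) := by
        have e : (1 / 2 : ℝ) • b - b = (1 / 2 : ℝ) • (-b) := by module
        rw [e]
        exact (smul_mem_interior_Dir (by norm_num)).2 hnb
      have h5 : Tendsto (fun z : E => (1 / 2 : ℝ) • b - z) (𝓝 b) (𝓝 ((1 / 2 : ℝ) • b - b)) :=
        (by fun_prop : Continuous fun z : E => (1 / 2 : ℝ) • b - z).tendsto b
      exact h5.eventually (isOpen_interior.mem_nhds h4)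
    obtain ⟨ε, hε, h⟩ := Metric.eventually_nhds_iff_ball.1 (h1.and (h2.and h3))
    refine ⟨ε, hε, fun z hz hzd => ?_⟩
    obtain ⟨h4, h5, h6⟩ := h z hzd
    refine ⟨h4, fun hzK => ?_, h5⟩
    have hzi := hnw z h4 hzK
    refine hNS ((2 : ℝ) • z) ((smul_mem_interior_Dir two_pos).2 hzi) (S.smul_mem _ hz) ?_
    have e : b - (2 : ℝ) • z = (2 : ℝ) • ((1 / 2 : ℝ) • b - z) := by module
    rw [e]
    exact (smul_mem_interior_Dir two_pos).2 h6
  -- a second point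
  obtain ⟨v', hv'S, hli, -⟩ := exists_span_pair hSr hbS hb0
  obtain ⟨η, hη1, hη0⟩ : ∃ η : ℝ, dist (b + η • v') b < ε ∧ 0 < η := by
    have h1 : Tendsto (fun η : ℝ => b + η • v') (𝓝 0) (𝓝 (b + (0 : ℝ) • v')) :=
      (by fun_prop : Continuous fun η : ℝ => b + η • v').tendsto 0
    rw [zero_smul, add_zero] at h1
    have h2 : ∀ᶠ η : ℝ in 𝓝[>] 0, dist (b + η • v') b < ε :=
      nhdsWithin_le_nhds (Metric.tendsto_nhds.1 h1 ε hε)
    obtain ⟨η, hη1, hη0⟩ := (h2.and self_mem_nhdsWithin).exists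
    exact ⟨η, hη1, hη0⟩
  set b' : E := b + η • v' with hb'
  have hb'S : b' ∈ S := S.add_mem hbS (S.smul_mem _ hv'S)
  obtain ⟨hb'L, hb'K, hnb'⟩ := hnear b' hb'S hη1
  have hb'U : b' ∉ interior (Dir L \ Dir K) := fun h => hSU _ h hb'S
  obtain ⟨S', hS'V, hS'r, hb'S', hS'U, ⟨c', l', hom'⟩, -⟩ := centred E K L hU b' hb'L hb'K hb'U hnb'
    V hV (hSV hb'S) ⟨q₀, hq₀, hq₀V⟩
  have hS'pos : ∀ v ∈ S', ¬ 0 < ⟪m, v⟫ := by
    intro v hv hpos
    have hlim : Tendsto (fun t : ℝ => b' + t • v - (t * ⟪m, v⟫ / ⟪m, q₀⟫) • q₀) (𝓝 0)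
        (𝓝 (b' + (0 : ℝ) • v - (0 * ⟪m, v⟫ / ⟪m, q₀⟫) • q₀)) :=
      (by fun_prop : Continuous fun t : ℝ =>
        b' + t • v - (t * ⟪m, v⟫ / ⟪m, q₀⟫) • q₀).tendsto 0
    rw [zero_smul, zero_mul, zero_div, zero_smul, add_zero, sub_zero] at hlim
    have h1 : ∀ᶠ t : ℝ in 𝓝[>] 0,
        b' + t • v - (t * ⟪m, v⟫ / ⟪m, q₀⟫) • q₀ ∈ Metric.ball b ε :=
      nhdsWithin_le_nhds (hlim.eventually (Metric.isOpen_ball.mem_nhds hη1))
    obtain ⟨t, ht1, ht0⟩ := (h1.and self_mem_nhdsWithin).exists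
    have ht0 : 0 < t := ht0
    have hwS : b' + t • v - (t * ⟪m, v⟫ / ⟪m, q₀⟫) • q₀ ∈ S := by
      rw [hST]
      refine ⟨V.sub_mem (V.add_mem (hSV hb'S) (V.smul_mem _ (hS'V hv))) (V.smul_mem _ hq₀V), (hmM _).2 ?_⟩
      rw [inner_sub_right, inner_add_right, inner_smul_right, inner_smul_right]
      have h2 : ⟪m, b'⟫ = 0 := by
        rw [hST] at hb'S
        exact (hmM _).1 hb'S.2
      rw [h2]
      field_simp
      ring
    obtain ⟨hwL, hwK, -⟩ := hnear _ hwS ht1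
    have h3 := hU.add q₀ hq₀ _ (interior_subset hwL) hwK (t * ⟪m, v⟫ / ⟪m, q₀⟫) (by positivity)
    rw [sub_add_cancel] at h3
    exact hS'U _ h3 (S'.add_mem hb'S' (S'.smul_mem _ hv))
  have hS'S : S' = S := by
    apply Submodule.eq_of_le_of_finrank_le
    · intro v hv
      rw [hST]
      refine ⟨hS'V hv, (hmM v).2 ?_⟩
      apply le_antisymm
      · exact not_lt.1 (hS'pos v hv)
      · have h1 := not_lt.1 (hS'pos (-v) (S'.neg_mem hv))
        rw [inner_neg_right] at h1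
        linarith
    · omega
  rw [hS'S] at hom'
  have hu := (hom.unique hK hL hom' (Or.inr ⟨b, interior_subset hbL, hbS⟩)).1
  have hx0 := (hom.gHom hK hL).ne_zero hK hL (q := b) ⟨interior_subset hbL, hbS⟩
    (fun h => hbK h.1)
  have h0 : (c - c') • b + (-(c' * η)) • v' = 0 := by
    have : (c - c') • b + (-(c' * η)) • v' = c • b - c' • b' := by
      rw [hb']; module
    rw [this, hu, sub_self]
  obtain ⟨h1, h2⟩ := LinearIndependent.pair_iff.1 hli _ _ h0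
  have hc' : c' = 0 := by
    rcases mul_eq_zero.1 (neg_eq_zero.1 h2) with h | h
    · exact h
    · exact absurd h hη0.ne'
  apply hx0
  rw [hu, hc', zero_smul]

end Pool.Agent.H49.SB
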