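import Pool.Agent.H49.SB.P23

/-!
# The same interior directions, but different directions (module C3)
-/

namespace Pool.Agent.H49.SB

open Set Filter Topology Pool.Agent.H63.SB
open scoped RealInnerProductSpace

variable {E : Type*} [NormedAddCommGroup E] [InnerProductSpace ℝ E]
variable {K L : Set E}

/-- Coordinates modulo `W`. -/
theorem exists_coord_of {W : Submodule ℝ E} {e f : E}
    (hef : ∀ s t : ℝ, s • e + t • f ∈ W → s = 0 ∧ t = 0) :
    ∃ a b : E →ₗ[ℝ] ℝ, (∀ w ∈ W, a w = 0) ∧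
      (∀ w ∈ W, b w = 0) ∧ a e = 1 ∧ a f = 0 ∧ b e = 0 ∧ b f = 1 := by
  let F : ℝ × ℝ →ₗ[ℝ] (E ⧸ W) :=
    (LinearMap.toSpanSingleton ℝ (E ⧸ W) (W.mkQ e)).coprod
      (LinearMap.toSpanSingleton ℝ (E ⧸ W) (W.mkQ f))
  have hF : ∀ p : ℝ × ℝ, F p = W.mkQ (p.1 • e + p.2 • f) := by
    intro p
    simp [F]
  have hker : LinearMap.ker F = ⊥ := by
    rw [LinearMap.ker_eq_bot']
    intro p hp
    rw [hF, Submodule.mkQ_apply, Submodule.Quotient.mk_eq_zero] at hp
    obtain ⟨h1, h2⟩ := hef _ _ hp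
    exact Prod.ext h1 h2
  obtain ⟨r, hr⟩ := F.exists_leftInverse_of_injective hker
  have hr' : ∀ p : ℝ × ℝ, r (W.mkQ (p.1 • e + p.2 • f)) = p := by
    intro p
    rw [← hF]
    exact LinearMap.congr_fun hr p
  have he := hr' (1, 0)
  have hf := hr' (0, 1)
  simp only [one_smul, zero_smul, add_zero, zero_add] at he hf
  refine ⟨(LinearMap.fst ℝ ℝ ℝ) ∘ₗ r ∘ₗ W.mkQ, (LinearMap.snd ℝ ℝ ℝ) ∘ₗ r ∘ₗ W.mkQ,
    ?_, ?_, ?_, ?_, ?_, ?_⟩
  · intro w hw
    have : W.mkQ w = 0 := by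
      rw [Submodule.mkQ_apply, Submodule.Quotient.mk_eq_zero]; exact hw
    simp only [LinearMap.comp_apply, this, map_zero]
  · intro w hw
    have : W.mkQ w = 0 := by
      rw [Submodule.mkQ_apply, Submodule.Quotient.mk_eq_zero]; exact hw
    simp only [LinearMap.comp_apply, this, map_zero]
  · simp only [LinearMap.comp_apply, he, LinearMap.fst_apply]
  · simp only [LinearMap.comp_apply, hf, LinearMap.fst_apply]
  · simp only [LinearMap.comp_apply, he, LinearMap.snd_apply]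
  · simp only [LinearMap.comp_apply, hf, LinearMap.snd_apply]

theorem caseInt : CaseIntStmt := by
  intro E _ _ _ K L hK hL hD hq hdim hall
  obtain ⟨q, hqL, hqK⟩ := hq
  have : CompleteSpace E := FiniteDimensional.complete ℝ E
  have hq0 : q ≠ 0 := hqL.1
  set Q : Submodule ℝ E := Submodule.span ℝ {q} with hQ
  have hqQ : q ∈ Q := Submodule.mem_span_singleton_self q
  have hQrank : Module.finrank ℝ Q = 1 := finrank_span_singleton hq0
  -- the analysis of a good plane
  have key : ∀ v : E, v ∉ Q →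
      (∀ p ∈ Dir L, p ∈ Q ⊔ Submodule.span ℝ {v} → p ∉ Q →
        p ∈ closure (interior (Dir L) ∩ (Q ⊔ Submodule.span ℝ {v} : Submodule ℝ E))) →
      ∀ (x : E) (l : ℝ), Hom K L (Q ⊔ Submodule.span ℝ {v}) x l → x ∈ Q := by
    intro v hv hres x l h
    by_contra hxQ
    set P : Submodule ℝ E := Q ⊔ Submodule.span ℝ {v} with hP
    have hqP : q ∈ P := Submodule.mem_sup_left hqQ
    have hg := h.gHom hK hL
    have hq2 : q ∈ Dir L ∩ (P : Set E) := ⟨hqL, hqP⟩
    have hq1 : q ∉ Dir K ∩ (P : Set E) := fun h => hqK h.1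
    have hef : ∀ s t : ℝ, s • q + t • x ∈ (⊥ : Submodule ℝ E) → s = 0 ∧ t = 0 := by
      intro s t hst
      rw [Submodule.mem_bot] at hst
      have ht : t = 0 := by
        by_contra ht
        apply hxQ
        have e : t • x = (-s) • q := by
          rw [neg_smul]; exact eq_neg_of_add_eq_zero_right hst
        rw [← Q.smul_mem_iff ht, e]
        exact Q.smul_mem _ hqQ
      rw [ht, zero_smul, add_zero] at hst
      exact ⟨(smul_eq_zero.1 hst).resolve_right hq0, ht⟩
    obtain ⟨a, b, -, -, haq, hax, hbq, hbx⟩ := exists_coord_of hef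
    have harc : ∀ s t : ℝ, 0 < s → 0 < t → s • q - t • x ∈ Dir L ∧ s • q - t • x ∉ Dir K := by
      intro s t hs ht
      have hne : s • q - t • x ≠ 0 := by
        intro h0
        have := hef s (-t) (by rw [Submodule.mem_bot, ← h0]; module)
        exact hs.ne' this.1
      have h1 := hg.sub_mem hK hL (hg.cone₂ q hq2 s hs) ht.le hne
      refine ⟨h1.1, fun h2 => ?_⟩
      have h3 := hg.add_mem hK hL ⟨h2, h1.2⟩ ht.le (by
        rw [sub_add_cancel]; exact smul_ne_zero hs.ne' hq0)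
      rw [sub_add_cancel] at h3
      exact hqK ((smul_mem_Dir hs).1 h3.1)
    -- the point `q - x`
    have hp0 := harc 1 1 one_pos one_pos
    rw [one_smul, one_smul] at hp0
    have hpP : q - x ∈ P := P.sub_mem hqP h.1
    have hpQ : q - x ∉ Q := fun h1 => hxQ (by simpa using Q.sub_mem hqQ h1)
    have hcl := hres _ hp0.1 hpP hpQ
    obtain ⟨w, hw, hlim⟩ := mem_closure_iff_seq_limit.1 hcl
    have hacont : Continuous a := a.continuous_of_finiteDimensional
    have hbcont : Continuous b := b.continuous_of_finiteDimensional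
    have ha1 : Tendsto (fun n => a (w n)) atTop (𝓝 1) := by
      have := (hacont.tendsto _).comp hlim
      rw [map_sub, haq, hax, sub_zero] at this
      exact this
    have hb1 : Tendsto (fun n => b (w n)) atTop (𝓝 (-1)) := by
      have := (hbcont.tendsto _).comp hlim
      rw [map_sub, hbq, hbx, zero_sub] at this
      exact this
    obtain ⟨n, hn1, hn2⟩ := ((ha1.eventually (lt_mem_nhds one_pos)).and
      (hb1.eventually (gt_mem_nhds (by norm_num : (-1 : ℝ) < 0)))).exists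
    -- `w n` is in the span of `q` and `x`
    have hspan : ∀ p ∈ P, p = a p • q + b p • x := by
      have hxP : x ∈ P := h.1
      obtain ⟨y, hy, z, hz, hyz⟩ := Submodule.mem_sup.1 hxP
      obtain ⟨c, rfl⟩ := Submodule.mem_span_singleton.1 hy
      obtain ⟨d, rfl⟩ := Submodule.mem_span_singleton.1 hz
      have hd : d ≠ 0 := by
        rintro rfl
        apply hxQ
        rw [← hyz, zero_smul, add_zero]
        exact Q.smul_mem _ hqQ
      have hvx : v = (-(c / d)) • q + d⁻¹ • x := by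
        rw [← hyz, smul_add, smul_smul, smul_smul, inv_mul_cancel₀ hd, one_smul]
        rw [← add_assoc, ← add_smul]
        have : -(c / d) + d⁻¹ * c = 0 := by field_simp; ring
        rw [this, zero_smul, zero_add]
      intro p hp
      obtain ⟨y, hy, z, hz, rfl⟩ := Submodule.mem_sup.1 hp
      obtain ⟨c', rfl⟩ := Submodule.mem_span_singleton.1 hy
      obtain ⟨d', rfl⟩ := Submodule.mem_span_singleton.1 hz
      rw [hvx]
      simp only [map_add, map_smul, haq, hax, hbq, hbx, smul_eq_mul]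
      module
    have hwn := hspan _ (hw n).2
    have hwarc := harc (a (w n)) (-b (w n)) hn1 (by linarith)
    rw [neg_smul, sub_neg_eq_add, ← hwn] at hwarc
    apply hwarc.2
    apply interior_subset
    rw [hD]
    exact (hw n).1
  -- the open dense set of vectors off `Q`
  have hQc : IsOpen ((Q : Set E)ᶜ) := (Submodule.closed_of_finiteDimensional Q).isOpen_compl
  have hQd : Dense ((Q : Set E)ᶜ) := by
    rw [← interior_eq_empty_iff_dense_compl]
    by_contra hne
    have htop := Submodule.eq_top_of_nonempty_interior' Q (nonempty_iff_ne_empty.2 hne)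
    rw [htop, finrank_top] at hQrank
    omega
  have hres : ∀ᶠ v : E in residual E, v ∉ Q ∧ (∀ p ∈ Dir L, p ∈ Q ⊔ Submodule.span ℝ {v} →
      p ∉ Q → p ∈ closure (interior (Dir L) ∩ (Q ⊔ Submodule.span ℝ {v} : Submodule ℝ E))) := by
    have h1 : ∀ᶠ v : E in residual E, v ∈ ((Q : Set E)ᶜ) := residual_of_dense_open hQc hQd
    filter_upwards [h1, residual_sup hL Q] with v hv1 hv2
    exact ⟨hv1, hv2⟩
  have hgood : ∀ v : E, v ∉ Q → (∀ p ∈ Dir L, p ∈ Q ⊔ Submodule.span ℝ {v} →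
      p ∉ Q → p ∈ closure (interior (Dir L) ∩ (Q ⊔ Submodule.span ℝ {v} : Submodule ℝ E))) →
      (interior (Dir K) ∩ ((Q ⊔ Submodule.span ℝ {v} : Submodule ℝ E) : Set E)).Nonempty →
      ∃ (x : E) (l : ℝ), x ∈ Q ∧ Hom K L (Q ⊔ Submodule.span ℝ {v}) x l := by
    intro v hv1 hv2 hne
    obtain ⟨x, l, h⟩ := hall _ (by rw [finrank_sup_span hv1, hQrank]) hne
    exact ⟨x, l, key v hv1 hv2 x l h, h⟩
  have hdense := dense_of_mem_residual hres
  -- a first good plane
  have hΩ : (interior (Dir K)).Nonempty := by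
    obtain ⟨w, hw, -⟩ := hL.exists_interior_near hqL one_pos
    exact ⟨w, hD ▸ hw⟩
  obtain ⟨v₀, hv₀Ω, hv₀1, hv₀2⟩ := hdense.inter_open_nonempty _ isOpen_interior hΩ
  obtain ⟨x₀, l₀, hx₀, h₀⟩ := hgood v₀ hv₀1 hv₀2
    ⟨v₀, hv₀Ω, Submodule.mem_sup_right (Submodule.mem_span_singleton_self v₀)⟩
  -- all good planes have the same homothety
  have hgood' : ∀ v : E, v ∉ Q → (∀ p ∈ Dir L, p ∈ Q ⊔ Submodule.span ℝ {v} →
      p ∉ Q → p ∈ closure (interior (Dir L) ∩ (Q ⊔ Submodule.span ℝ {v} : Submodule ℝ E))) →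
      (interior (Dir K) ∩ ((Q ⊔ Submodule.span ℝ {v} : Submodule ℝ E) : Set E)).Nonempty →
      Hom K L (Q ⊔ Submodule.span ℝ {v}) x₀ l₀ := by
    intro v hv1 hv2 hne
    obtain ⟨x, l, hx, h⟩ := hgood v hv1 hv2 hne
    have h1 : Hom K L Q x l := h.mono le_sup_left hx
    have h2 : Hom K L Q x₀ l₀ := h₀.mono le_sup_left hx₀
    have h3 := h1.unique hK hL h2 (Or.inr ⟨q, hqL, hqQ⟩)
    rw [← h3.1, ← h3.2]
    exact h
  have hl₀ : 0 < l₀ := h₀.2.1
  have hKn : (Dir K).Nonempty := hΩ.mono interior_subset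
  have hLn : (Dir L).Nonempty := ⟨q, hqL⟩
  have hcont : Continuous fun z : E => x₀ + l₀ • z := by fun_prop
  have hopen : IsOpenMap fun z : E => x₀ + l₀ • z :=
    ((Homeomorph.smulOfNeZero l₀ hl₀.ne').trans (Homeomorph.addLeft x₀)).isOpenMap
  refine ⟨x₀, l₀, hom_top_of_dense hK hL hKn hLn hl₀
    (A := {z | (x₀ + l₀ • z ∈ K ↔ z ∈ L)}) ?_ (fun z hz => hz)⟩
  rw [dense_iff_inter_open]
  intro O hO hOne
  by_cases h1 : (O ∩ L).Nonempty
  · -- meets the interior of `L`
    obtain ⟨y, hyO, hyL⟩ := h1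
    rw [← hL.closure_interior hLn] at hyL
    have h2 : (O ∩ interior L).Nonempty := mem_closure_iff.1 hyL O hO hyO
    obtain ⟨z, ⟨hzO, hzL⟩, hz1, hz2⟩ := hdense.inter_open_nonempty _
      (hO.inter isOpen_interior) h2
    have hz0 : z ≠ 0 := fun h => hz1 (by rw [h]; exact Q.zero_mem)
    have hzP : z ∈ Q ⊔ Submodule.span ℝ {z} :=
      Submodule.mem_sup_right (Submodule.mem_span_singleton_self z)
    have h3 := hgood' z hz1 hz2 ⟨z, by rw [hD]; exact (hL.of_mem_interior hzL hz0).1, hzP⟩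
    exact ⟨z, hzO, h3.2.2 z hzP⟩
  by_cases h2 : ((fun z : E => x₀ + l₀ • z) '' O ∩ K).Nonempty
  · obtain ⟨y, hyO, hyK⟩ := h2
    rw [← hK.closure_interior hKn] at hyK
    have h2 : ((fun z : E => x₀ + l₀ • z) '' O ∩ interior K).Nonempty :=
      mem_closure_iff.1 hyK _ (hopen O hO) hyO
    have h3 : (O ∩ (fun z : E => x₀ + l₀ • z) ⁻¹' (interior K)).Nonempty := by
      obtain ⟨_, ⟨z, hzO, rfl⟩, hz⟩ := h2
      exact ⟨z, hzO, hz⟩
    obtain ⟨z, ⟨hzO, hzK⟩, hz1, hz2⟩ := hdense.inter_open_nonempty _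
      (hO.inter (isOpen_interior.preimage hcont)) h3
    have hzP : z ∈ Q ⊔ Submodule.span ℝ {z} :=
      Submodule.mem_sup_right (Submodule.mem_span_singleton_self z)
    have hzK' : x₀ + l₀ • z ∈ interior K := hzK
    have hwP : x₀ + l₀ • z ∈ Q ⊔ Submodule.span ℝ {z} :=
      Submodule.add_mem _ (Submodule.mem_sup_left hx₀) (Submodule.smul_mem _ _ hzP)
    have hw0 : x₀ + l₀ • z ≠ 0 := by
      intro h
      apply hz1
      have e : z = l₀⁻¹ • (-x₀) := by
        rw [← eq_neg_of_add_eq_zero_right h, smul_smul, inv_mul_cancel₀ hl₀.ne', one_smul]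
      rw [e]
      exact Q.smul_mem _ (Q.neg_mem hx₀)
    have h4 := hgood' z hz1 hz2 ⟨_, (hK.of_mem_interior hzK' hw0).1, hwP⟩
    exact ⟨z, hzO, h4.2.2 z hzP⟩
  · obtain ⟨z, hzO⟩ := hOne
    refine ⟨z, hzO, ?_⟩
    constructor
    · intro h
      exact absurd ⟨_, ⟨z, hzO, rfl⟩, h⟩ h2
    · intro h
      exact absurd ⟨z, hzO, h⟩ h1

end Pool.Agent.H49.SB
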