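import Pool.Agent.H37.SB.Targets

/-!
INL: the inequality for line free sets.
-/

set_option autoImplicit false

namespace Pool.Agent.H49.SB

open Finset Pool.Agent.H36Sq Pool.Agent.H37.SB

theorem pw (x : ℝ) (b j n K : ℕ) (hx : x = 2 ^ b) :
    x ^ (j * n * K) = ((2 : ℝ) ^ (n * K)) ^ (b * j) := by
  rw [hx, ← pow_mul, ← pow_mul]
  congr 1
  ring

theorem ar1 {L z : ℝ} (hz : 0 < z) : L ^ 3 * z ^ 6 / z ^ (2 * 3) = L ^ 3 := by
  field_simp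

theorem ar2 {L z : ℝ} (hz : 0 < z) : L ^ 3 * z ^ 10 / z ^ (4 * 3) = L ^ 3 / z ^ 2 := by
  field_simp

theorem ar3 {L z : ℝ} (hz : 0 < z) : z ^ (1 * 2) * (L ^ 2 * z ^ 4) * (z ^ (4 * 1) * (L * z ^ 2)) =
    L ^ 3 / z ^ 12 * z ^ (8 * 3) := by
  field_simp
  ring

theorem ar4 {L z : ℝ} (hz : 0 < z) : z ^ (1 * 2) * (L ^ 2 * z ^ 4) * (z ^ (7 * 1) * (L * z ^ 2)) =
    L ^ 3 / z ^ 12 * z ^ (9 * 3) := by
  field_simp
  ring

theorem ar5 (lam : ℝ) (n K b : ℕ) : (lam ^ 6 * ((1 / 2 : ℝ) ^ b) ^ K) ^ n =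
    (lam ^ n) ^ 3 * ((lam ^ n) ^ 3 / ((2 : ℝ) ^ (n * K)) ^ b) := by
  have e : ((1 / 2 : ℝ) ^ b) ^ K = ((2 ^ K) ^ b)⁻¹ := by
    rw [← pow_mul, ← pow_mul, one_div, inv_pow, mul_comm b K]
  have e1 : (((2 : ℝ) ^ K) ^ b) ^ n = ((2 : ℝ) ^ (n * K)) ^ b := by
    rw [← pow_mul, ← pow_mul, ← pow_mul]
    congr 1
    ring
  have e2 : (lam ^ 6) ^ n = (lam ^ n) ^ 3 * (lam ^ n) ^ 3 := by
    rw [← pow_mul, ← pow_mul, ← pow_add]
    congr 1
    ring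
  rw [e, mul_pow, inv_pow, e1, e2]
  ring

theorem ar6 (w lam : ℝ) (n K : ℕ) (h : w = lam * 4 ^ K) :
    w ^ n = lam ^ n * ((2 : ℝ) ^ (n * K)) ^ 2 := by
  have e : ((4 : ℝ) ^ K) ^ n = ((2 : ℝ) ^ (n * K)) ^ 2 := by
    rw [show (4 : ℝ) = 2 ^ 2 by norm_num, ← pow_mul, ← pow_mul, ← pow_mul]
    congr 1
    ring
  rw [h, mul_pow, e]

theorem pf_INL (h1 : T_MAIN) (h2 : T_PRD) (h3 : T_BA) (h4 : T_BB) (h5 : T_POW) (h6 : T_LIM) :
    T_INL := by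
  intro c hc ι _ _ _ W hW hcard
  obtain ⟨κ, hκ, hM⟩ := h1 c hc
  set K := Fintype.card ι with hK
  have hW0 : 0 < W.card := lt_of_lt_of_le (pow_pos (by norm_num) _) hcard
  have hW0r : (0 : ℝ) < (W.card : ℝ) := by exact_mod_cast hW0
  set lam : ℝ := (W.card : ℝ) / 4 ^ K with hlam
  have hl0 : 0 < lam := div_pos hW0r (pow_pos (by norm_num) _)
  have hWl : (W.card : ℝ) = lam * 4 ^ K := by
    rw [hlam]
    field_simp
  have hx0 : ∀ b : ℕ, 0 < lam ^ 6 * ((1 / 2 : ℝ) ^ b) ^ K := fun b =>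
    mul_pos (pow_pos hl0 6) (pow_pos (pow_pos (by norm_num) b) K)
  refine h6 κ _ _ c hκ (hx0 2) (hx0 12) ?_
  intro n hn
  obtain ⟨c3, s3, -, hls⟩ := h5 ι (3 * n) W
  obtain ⟨c2, s2, -, -⟩ := h5 ι (2 * n) W
  obtain ⟨c1, -, l1, -⟩ := h5 ι n W
  have hSq : SqFree W := hls hW
  have hne : Nonempty (Fin (2 * n)) := ⟨⟨0, by omega⟩⟩
  obtain ⟨a1, a2⟩ := h3 (Fin (2 * n) × ι) (powW (2 * n) W)
  obtain ⟨a3, a4⟩ := a2 (s2 hSq)
  obtain ⟨b1, b2, b3⟩ := h4 (Fin n × ι) (powW n W)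
  obtain ⟨q1, q2, q3⟩ := h2 (Fin (2 * n) × ι) (Fin n × ι) (blkA (powW (2 * n) W))
    (blkB (powW n W))
  have hsA : ∑ s, Nsol (blkA (powW (2 * n) W)) s = Nsol (blkA (powW (2 * n) W)) 0 :=
    Finset.sum_eq_single 0 (fun s _ hs => a3 s hs) (fun h => absurd (Finset.mem_univ _) h)
  have k3 : Fintype.card (Fin (3 * n) × ι) = 3 * n * K := by
    rw [Fintype.card_prod, Fintype.card_fin]
  have k2 : Fintype.card (Fin (2 * n) × ι) = 2 * n * K := by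
    rw [Fintype.card_prod, Fintype.card_fin]
  have k1 : Fintype.card (Fin n × ι) = 1 * n * K := by
    rw [Fintype.card_prod, Fintype.card_fin, one_mul]
  have k4 : Fintype.card ((Fin (2 * n) × ι) ⊕ (Fin n × ι)) = 3 * n * K := by
    rw [Fintype.card_sum, k2, k1]
    ring
  rw [k2] at a1 a4
  rw [k1] at b1 b2 b3
  rw [c2] at a1 a4
  rw [c1] at b1 b2 b3
  -- abbreviations
  set z : ℝ := (2 : ℝ) ^ (n * K) with hz
  set L : ℝ := lam ^ n with hL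
  have hz0 : 0 < z := pow_pos (by norm_num) _
  have hL0 : 0 < L := pow_pos hl0 _
  have w1 : (W.card : ℝ) ^ n = L * z ^ 2 := ar6 _ _ _ _ hWl
  have w2 : (W.card : ℝ) ^ (2 * n) = L ^ 2 * z ^ 4 := by
    rw [mul_comm 2 n, pow_mul, w1]
    ring
  have w3 : (W.card : ℝ) ^ (3 * n) = L ^ 3 * z ^ 6 := by
    rw [mul_comm 3 n, pow_mul, w1]
    ring
  have E1 : ((powW (3 * n) W).card : ℝ) / 4 ^ Fintype.card (Fin (3 * n) × ι) = L ^ 3 := by
    rw [c3, k3, Nat.cast_pow, w3, pw 4 2 3 n K (by norm_num)]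
    exact ar1 hz0
  have F1 : ((prodF (blkA (powW (2 * n) W)) (blkB (powW n W))).card : ℝ) = L ^ 3 * z ^ 10 := by
    rw [q1, a1, b1]
    push_cast
    rw [w2, w1, pw 2 1 2 n K (by norm_num), pw 4 2 1 n K (by norm_num)]
    ring
  have E2 : ((prodF (blkA (powW (2 * n) W)) (blkB (powW n W))).card : ℝ) /
      16 ^ Fintype.card ((Fin (2 * n) × ι) ⊕ (Fin n × ι)) = L ^ 3 / z ^ 2 := by
    rw [F1, k4, pw 16 4 3 n K (by norm_num)]
    exact ar2 hz0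
  have G1 : (Nsol (prodF (blkA (powW (2 * n) W)) (blkB (powW n W))) 0 : ℝ) ≤
      L ^ 3 / z ^ 12 * 256 ^ Fintype.card ((Fin (2 * n) × ι) ⊕ (Fin n × ι)) := by
    have g := Nat.mul_le_mul a4 (b2 (l1 hW))
    rw [← q2] at g
    have g' : (Nsol (prodF (blkA (powW (2 * n) W)) (blkB (powW n W))) 0 : ℝ) ≤
        2 ^ (2 * n * K) * (W.card : ℝ) ^ (2 * n) * (16 ^ (1 * n * K) * (W.card : ℝ) ^ n) := by
      exact_mod_cast g
    refine g'.trans (le_of_eq ?_)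
    rw [w2, w1, k4, pw 2 1 2 n K (by norm_num), pw 16 4 1 n K (by norm_num),
      pw 256 8 3 n K (by norm_num)]
    exact ar3 hz0
  have G2 : (∑ s, (Nsol (prodF (blkA (powW (2 * n) W)) (blkB (powW n W))) s : ℝ)) ≤
      L ^ 3 / z ^ 12 * 512 ^ Fintype.card ((Fin (2 * n) × ι) ⊕ (Fin n × ι)) := by
    have g := Nat.mul_le_mul a4 b3
    rw [← hsA, ← q3] at g
    have g' : (∑ s, (Nsol (prodF (blkA (powW (2 * n) W)) (blkB (powW n W))) s : ℝ)) ≤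
        2 ^ (2 * n * K) * (W.card : ℝ) ^ (2 * n) * (128 ^ (1 * n * K) * (W.card : ℝ) ^ n) := by
      exact_mod_cast g
    refine g'.trans (le_of_eq ?_)
    rw [w2, w1, k4, pw 2 1 2 n K (by norm_num), pw 128 7 1 n K (by norm_num),
      pw 512 9 3 n K (by norm_num)]
    exact ar4 hz0
  have hR : 2 ^ Fintype.card ((Fin (2 * n) × ι) ⊕ (Fin n × ι)) ≤ (powW (3 * n) W).card := by
    rw [c3, k4, show 3 * n * K = K * (3 * n) by ring, pow_mul]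
    exact Nat.pow_le_pow_left hcard _
  have hF : (prodF (blkA (powW (2 * n) W)) (blkB (powW n W))).Nonempty := by
    rw [← Finset.card_pos]
    have : (0 : ℝ) < ((prodF (blkA (powW (2 * n) W)) (blkB (powW n W))).card : ℝ) := by
      rw [F1]
      exact mul_pos (pow_pos hL0 3) (pow_pos hz0 10)
    exact_mod_cast this
  have key := hM (Fin (3 * n) × ι) ((Fin (2 * n) × ι) ⊕ (Fin n × ι)) (powW (3 * n) W)
    (s3 hSq) hR (prodF (blkA (powW (2 * n) W)) (blkB (powW n W))) hF (L ^ 3 / z ^ 12)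
    (div_pos (pow_pos hL0 3) (pow_pos hz0 12)) G1 G2
  rw [E1, E2] at key
  rw [ar5, ar5]
  exact key

end Pool.Agent.H49.SB
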