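import Pool.Agent.H63.SB.Tk
import Pool.Agent.H63.SB.Targets

/-!
# Pencil lemma (module P1)
-/

namespace Pool.Agent.H49.SB

open Set Filter Topology Pool.Agent.H63.SB
open scoped RealInnerProductSpace

variable {E : Type*} [NormedAddCommGroup E] [InnerProductSpace ℝ E]
variable {K L : Set E}

/-- In a good plane of the pencil every direction of `K` is a limit of common directions. -/
theorem mem_closure_common (hK : StarB K) (hL : StarB L) {W S : Submodule ℝ E}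
    {x : E} {l : ℝ} (h : Hom K L S x l) (hx : x ∉ W)
    (hG : ∀ p ∈ S, p ∉ W → (p ∈ Dir K ∨ p ∈ Dir L) → p ∈ closure (Dir K ∩ Dir L ∩ (S : Set E)))
    {p : E} (hp : p ∈ S) (hpD : p ∈ Dir K ∨ p ∈ Dir L) :
    p ∈ closure (Dir K ∩ Dir L ∩ (S : Set E)) := by
  by_cases hpW : p ∈ W
  swap
  · exact hG p hp hpW hpD
  have hg := h.gHom hK hL
  rcases hpD with hpD | hpD
  · have h1 : ∀ t : ℝ, 0 < t → p + t • x ∈ closure (Dir K ∩ Dir L ∩ (S : Set E)) := by
      intro t ht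
      have hnW : p + t • x ∉ W := by
        intro h2
        apply hx
        have h3 : t • x ∈ W := by simpa using W.sub_mem h2 hpW
        exact (W.smul_mem_iff ht.ne').1 h3
      have hne : p + t • x ≠ 0 := fun h2 => hnW (by rw [h2]; exact W.zero_mem)
      have hm := hg.add_mem hK hL ⟨hpD, hp⟩ ht.le hne
      exact hG _ hm.2 hnW (Or.inl hm.1)
    have h4 : Tendsto (fun t : ℝ => p + t • x) (𝓝[>] 0) (𝓝 (p + (0 : ℝ) • x)) :=
      ((by fun_prop : Continuous fun t : ℝ => p + t • x).tendsto 0).mono_left nhdsWithin_le_nhds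
    rw [zero_smul, add_zero] at h4
    refine isClosed_closure.mem_of_tendsto h4 ?_
    filter_upwards [self_mem_nhdsWithin] with t ht
    exact h1 t ht
  · have h1 : ∀ t : ℝ, 0 < t → p - t • x ∈ closure (Dir K ∩ Dir L ∩ (S : Set E)) := by
      intro t ht
      have hnW : p - t • x ∉ W := by
        intro h2
        apply hx
        have h3 : t • x ∈ W := by simpa using W.sub_mem hpW h2
        exact (W.smul_mem_iff ht.ne').1 h3
      have hne : p - t • x ≠ 0 := fun h2 => hnW (by rw [h2]; exact W.zero_mem)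
      have hm := hg.sub_mem hK hL ⟨hpD, hp⟩ ht.le hne
      exact hG _ hm.2 hnW (Or.inr hm.1)
    have h4 : Tendsto (fun t : ℝ => p - t • x) (𝓝[>] 0) (𝓝 (p - (0 : ℝ) • x)) :=
      ((by fun_prop : Continuous fun t : ℝ => p - t • x).tendsto 0).mono_left nhdsWithin_le_nhds
    rw [zero_smul, sub_zero] at h4
    refine isClosed_closure.mem_of_tendsto h4 ?_
    filter_upwards [self_mem_nhdsWithin] with t ht
    exact h1 t ht

theorem nojump [FiniteDimensional ℝ E] (hK : StarB K) (hL : StarB L) {W : Submodule ℝ E}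
    (hKW : (Dir K ∩ (W : Set E)).Nonempty) (hLW : (Dir L ∩ (W : Set E)).Nonempty)
    {v : ℕ → E} {v₀ : E} {c : ℕ → E →ₗ[ℝ] ℝ} {c₀ : E →ₗ[ℝ] ℝ}
    (hv : Tendsto v atTop (𝓝 v₀)) (hcv₀ : c₀ v₀ = 1)
    (hcW : ∀ i, ∀ w ∈ W, c i w = 0) (hcW₀ : ∀ w ∈ W, c₀ w = 0)
    (hc : ∀ (φ : ℕ → ℕ) (x : ℕ → E) (x' : E), StrictMono φ → Tendsto x atTop (𝓝 x') →
      Tendsto (fun i => c (φ i) (x i)) atTop (𝓝 (c₀ x')))
    {x : ℕ → E} {l : ℕ → ℝ} (hi : ∀ i, Hom K L (W ⊔ Submodule.span ℝ {v i}) (x i) (l i))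
    {x₀ : E} {l₀ : ℝ} (h₀ : Hom K L (W ⊔ Submodule.span ℝ {v₀}) x₀ l₀)
    (hG : ∀ i, ∀ p ∈ W ⊔ Submodule.span ℝ {v i}, p ∉ W → (p ∈ Dir K ∨ p ∈ Dir L) →
      p ∈ closure (Dir K ∩ Dir L ∩ ((W ⊔ Submodule.span ℝ {v i} : Submodule ℝ E) : Set E)))
    (hsign : ∀ i, c i (x i) * c₀ x₀ < 0) :
    ∃ (x : E) (l : ℝ), Hom K L W x l := by
  have hv₀ : v₀ ∉ W := fun h => by rw [hcW₀ _ h] at hcv₀; exact zero_ne_one hcv₀
  have hP : PConv (fun i => W ⊔ Submodule.span ℝ {v i}) (W ⊔ Submodule.span ℝ {v₀}) :=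
    pconv_sup hv hv₀
  set S : ℕ → Submodule ℝ E := fun i => W ⊔ Submodule.span ℝ {v i} with hS
  set T : Submodule ℝ E := W ⊔ Submodule.span ℝ {v₀} with hT
  have hWS : ∀ i, W ≤ S i := fun i => le_sup_left
  have hWT : W ≤ T := le_sup_left
  have hWLK : Dir K ∩ (W : Set E) ⊆ Lim K S T := fun p hp =>
    mem_Lim_of_tendsto hp.1 (hWT hp.2) (u := fun _ => p)
      (Eventually.of_forall fun i => ⟨hp.1, hWS i hp.2⟩) tendsto_const_nhds
  have hWLL : Dir L ∩ (W : Set E) ⊆ Lim L S T := fun p hp =>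
    mem_Lim_of_tendsto hp.1 (hWT hp.2) (u := fun _ => p)
      (Eventually.of_forall fun i => ⟨hp.1, hWS i hp.2⟩) tendsto_const_nhds
  obtain ⟨φ, x', l', hφ, hx', hl', hl'0, hg'⟩ := exists_limit hK hL hP
    (Eventually.of_forall hi) (hKW.mono hWLK) (hLW.mono hWLL)
  have hWLK' : Dir K ∩ (W : Set E) ⊆ Lim K (S ∘ φ) T := hWLK.trans (Lim_comp hφ)
  have hWLL' : Dir L ∩ (W : Set E) ⊆ Lim L (S ∘ φ) T := hWLL.trans (Lim_comp hφ)
  -- a vector of `T` on which the functional vanishes is in `W`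
  have hmemW : ∀ p ∈ T, c₀ p = 0 → p ∈ W := by
    intro p hp hcp
    obtain ⟨w, hw, y, hy, rfl⟩ := Submodule.mem_sup.1 hp
    obtain ⟨a, rfl⟩ := Submodule.mem_span_singleton.1 hy
    rw [map_add, hcW₀ w hw, map_smul, hcv₀] at hcp
    have ha : a = 0 := by simpa using hcp
    rw [ha, zero_smul, add_zero]
    exact hw
  have hcx' : Tendsto (fun i => c (φ i) (x (φ i))) atTop (𝓝 (c₀ x')) := hc φ _ _ hφ hx'
  have hsign' : c₀ x' * c₀ x₀ ≤ 0 :=
    le_of_tendsto (hcx'.mul_const (c₀ x₀)) (Eventually.of_forall fun i => (hsign (φ i)).le)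
  -- if the limit is in `W`
  rcases eq_or_ne (c₀ x') 0 with hg0 | hg0
  · have hxW : x' ∈ W := hmemW x' hg'.mem hg0
    refine ⟨x', l', (hg'.mono hWT hxW).hom hK hL ?_ ?_⟩
    · exact fun p hp => ⟨hWLK' hp, hp.2⟩
    · exact fun p hp => ⟨hWLL' hp, hp.2⟩
  exfalso
  have hg00 : c₀ x₀ ≠ 0 := by
    intro h0
    have := hsign 0
    rw [h0, mul_zero] at this
    exact lt_irrefl _ this
  have hlt : c₀ x' * c₀ x₀ < 0 := lt_of_le_of_ne hsign' (mul_ne_zero hg0 hg00)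
  have hxi : ∀ i, x i ∉ W := by
    intro i hxi
    have := hsign i
    rw [hcW i _ hxi, zero_mul] at this
    exact lt_irrefl _ this
  -- the common limit directions
  let Ji : ℕ → Set E := fun i => Dir K ∩ Dir L ∩ (S i : Set E)
  have hcl : ∀ i, ∀ p ∈ S i, (p ∈ Dir K ∨ p ∈ Dir L) → p ∈ closure (Ji i) := fun i p hp hpD =>
    mem_closure_common hK hL (hi i) (hxi i) (hG i) hp hpD
  let J : Set E := {p | p ∈ T ∧ p ≠ 0 ∧
    ∀ ε : ℝ, 0 < ε → ∀ᶠ i in atTop, (Ji (φ i) ∩ Metric.ball p ε).Nonempty}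
  have hJK : ∀ p ∈ J, p ∈ Dir K → p ∈ Lim K (S ∘ φ) T := by
    rintro p ⟨hpT, hp0, hp⟩ hpD
    refine ⟨hpD, hpT, fun ε hε => (hp ε hε).mono ?_⟩
    rintro i ⟨q, ⟨⟨h1, h2⟩, h3⟩, h4⟩
    exact ⟨q, ⟨h1, h3⟩, h4⟩
  have hJL : ∀ p ∈ J, p ∈ Dir L → p ∈ Lim L (S ∘ φ) T := by
    rintro p ⟨hpT, hp0, hp⟩ hpD
    refine ⟨hpD, hpT, fun ε hε => (hp ε hε).mono ?_⟩
    rintro i ⟨q, ⟨⟨h1, h2⟩, h3⟩, h4⟩
    exact ⟨q, ⟨h2, h3⟩, h4⟩
  -- a nearby point of the closure is enough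
  have hnear : ∀ p ∈ T, p ≠ 0 → (∀ ε : ℝ, 0 < ε → ∀ᶠ i in atTop,
      ∃ q ∈ closure (Ji (φ i)), dist q p < ε) → p ∈ J := by
    intro p hpT hp0 h
    refine ⟨hpT, hp0, fun ε hε => (h (ε / 2) (by positivity)).mono ?_⟩
    rintro i ⟨q, hq, hqp⟩
    obtain ⟨r, hr, hrq⟩ := Metric.mem_closure_iff.1 hq (ε / 2) (by positivity)
    refine ⟨r, hr, ?_⟩
    rw [Metric.mem_ball]
    calc dist r p ≤ dist r q + dist q p := dist_triangle _ _ _
      _ < ε / 2 + ε / 2 := by rw [dist_comm r q]; exact add_lt_add hrq hqp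
      _ = ε := by ring
  have hLK : Lim K (S ∘ φ) T ⊆ J := by
    intro p hp
    refine hnear p hp.2.1 hp.1.1 fun ε hε => (hp.2.2 ε hε).mono ?_
    rintro i ⟨q, ⟨hq1, hq2⟩, hq3⟩
    exact ⟨q, hcl (φ i) q hq2 (Or.inl hq1), hq3⟩
  have hLL : Lim L (S ∘ φ) T ⊆ J := by
    intro p hp
    refine hnear p hp.2.1 hp.1.1 fun ε hε => (hp.2.2 ε hε).mono ?_
    rintro i ⟨q, ⟨hq1, hq2⟩, hq3⟩
    exact ⟨q, hcl (φ i) q hq2 (Or.inr hq1), hq3⟩
  have hJadd : ∀ p ∈ J, ∀ t : ℝ, p + t • x' ≠ 0 → p + t • x' ∈ J := by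
    rintro p ⟨hpT, hp0, hp⟩ t hne
    refine hnear _ (T.add_mem hpT (T.smul_mem _ hg'.mem)) hne fun ε hε => ?_
    set δ : ℝ := min ε ‖p + t • x'‖ with hδ
    have hδ0 : 0 < δ := lt_min hε (norm_pos_iff.2 hne)
    have hlim : Tendsto (fun i => t • x (φ i)) atTop (𝓝 (t • x')) := hx'.const_smul t
    have h1 : ∀ᶠ i in atTop, dist (t • x (φ i)) (t • x') < δ / 2 :=
      (Metric.tendsto_nhds.1 hlim) (δ / 2) (by positivity)
    filter_upwards [hp (δ / 2) (by positivity), h1] with i hpi hxi'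
    obtain ⟨q, ⟨⟨hqK, hqL⟩, hqS⟩, hqb⟩ := hpi
    have hd : dist (q + t • x (φ i)) (p + t • x') < δ := by
      calc dist (q + t • x (φ i)) (p + t • x') ≤ dist q p + dist (t • x (φ i)) (t • x') :=
            dist_add_add_le _ _ _ _
        _ < δ / 2 + δ / 2 := add_lt_add hqb hxi'
        _ = δ := by ring
    have hne' : q + t • x (φ i) ≠ 0 := by
      intro h0
      rw [h0, dist_zero_left] at hd
      exact absurd hd (not_lt.2 (min_le_right _ _))
    refine ⟨q + t • x (φ i), ?_, lt_of_lt_of_le hd (min_le_left _ _)⟩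
    have hgi := (hi (φ i)).gHom hK hL
    rcases le_total 0 t with ht | ht
    · have := hgi.add_mem hK hL ⟨hqK, hqS⟩ ht hne'
      exact hcl (φ i) _ this.2 (Or.inl this.1)
    · have e : q + t • x (φ i) = q - (-t) • x (φ i) := by module
      rw [e] at hne' ⊢
      have := hgi.sub_mem hK hL ⟨hqL, hqS⟩ (neg_nonneg.2 ht) hne'
      exact hcl (φ i) _ this.2 (Or.inr this.1)
  have hJsmul : ∀ p ∈ J, ∀ t : ℝ, 0 < t → t • p ∈ J := by
    rintro p ⟨hpT, hp0, hp⟩ t ht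
    refine ⟨T.smul_mem _ hpT, smul_ne_zero ht.ne' hp0, fun ε hε => (hp (ε / t) (by positivity)).mono ?_⟩
    rintro i ⟨q, ⟨⟨hqK, hqL⟩, hqS⟩, hqb⟩
    refine ⟨t • q, ⟨⟨(smul_mem_Dir ht).2 hqK, (smul_mem_Dir ht).2 hqL⟩,
      (S (φ i)).smul_mem _ hqS⟩, ?_⟩
    rw [Metric.mem_ball, dist_eq_norm] at hqb ⊢
    rw [← smul_sub, norm_smul, Real.norm_of_nonneg ht.le]
    rw [lt_div_iff₀ ht] at hqb
    linarith
  -- the final argument
  have hx'0 : x' ≠ 0 := fun h0 => hg0 (by rw [h0, map_zero])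
  have hx00 : x₀ ≠ 0 := fun h0 => hg00 (by rw [h0, map_zero])
  have hx'J : x' ∈ J := hLK (hg'.x_mem hx'0).2
  have hnx'J : -x' ∈ J := hLL (hg'.neg_mem hx'0).2
  set α : ℝ := |c₀ x'| with hα
  set β : ℝ := |c₀ x₀| with hβ
  have hα0 : 0 < α := abs_pos.2 hg0
  have hβ0 : 0 < β := abs_pos.2 hg00
  set w : E := α • x₀ + β • x' with hw
  have hwW : w ∈ W := by
    apply hmemW _ (T.add_mem (T.smul_mem _ h₀.1) (T.smul_mem _ hg'.mem))
    rw [map_add, map_smul, map_smul, smul_eq_mul, smul_eq_mul, hα, hβ]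
    rcases mul_neg_iff.1 hlt with ⟨h1, h2⟩ | ⟨h1, h2⟩
    · rw [abs_of_pos h1, abs_of_neg h2]; ring
    · rw [abs_of_neg h1, abs_of_pos h2]; ring
  have hg₀ := h₀.gHom hK hL
  -- `± w` are in `J` when non-zero
  have hwJ : w ≠ 0 → w ∈ J ∧ -w ∈ J := by
    intro hw0
    have e1 : w = β • (x' + (α / β) • x₀) := by
      rw [smul_add, smul_smul, mul_div_cancel₀ _ hβ0.ne', hw, add_comm]
    have e2 : -w = β • (-x' - (α / β) • x₀) := by
      rw [smul_sub, smul_smul, mul_div_cancel₀ _ hβ0.ne', hw]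
      module
    have hne1 : x' + (α / β) • x₀ ≠ 0 := by
      intro h0
      rw [h0, smul_zero] at e1
      exact hw0 e1
    have hne2 : -x' - (α / β) • x₀ ≠ 0 := by
      intro h0
      rw [h0, smul_zero] at e2
      exact hw0 (neg_eq_zero.1 e2)
    have h1 := hg₀.add_mem hK hL ⟨(hg'.x_mem hx'0).2.1, hg'.mem⟩ (t := α / β) (by positivity) hne1
    have h2 := hg₀.sub_mem hK hL ⟨(hg'.neg_mem hx'0).2.1, T.neg_mem hg'.mem⟩ (t := α / β)
      (by positivity) hne2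
    constructor
    · apply hLK
      apply hWLK'
      refine ⟨?_, hwW⟩
      rw [e1]
      exact (smul_mem_Dir hβ0).2 h1.1
    · apply hLL
      apply hWLL'
      refine ⟨?_, W.neg_mem hwW⟩
      rw [e2]
      exact (smul_mem_Dir hβ0).2 h2.1
  -- all of the span is in `J`
  have hR : ∀ p ∈ Submodule.span ℝ {w, x'}, p ≠ 0 → p ∈ J := by
    intro p hp hp0
    obtain ⟨a, b, rfl⟩ := Submodule.mem_span_pair.1 hp
    by_cases haw : a • w = 0
    · rw [haw, zero_add] at hp0 ⊢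
      rcases lt_trichotomy b 0 with hb | hb | hb
      · have := hJsmul _ hnx'J (-b) (by linarith)
        rwa [smul_neg, neg_smul, neg_neg] at this
      · rw [hb, zero_smul] at hp0
        exact absurd rfl hp0
      · exact hJsmul _ hx'J b hb
    · have hw0 : w ≠ 0 := fun h0 => haw (by rw [h0, smul_zero])
      apply hJadd _ _ b hp0
      rcases lt_trichotomy a 0 with ha | ha | ha
      · have := hJsmul _ (hwJ hw0).2 (-a) (by linarith)
        rwa [smul_neg, neg_smul, neg_neg] at this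
      · rw [ha, zero_smul] at haw
        exact absurd rfl haw
      · exact hJsmul _ (hwJ hw0).1 a ha
  set R : Submodule ℝ E := Submodule.span ℝ {w, x'} with hRdef
  have hx'R : x' ∈ R := Submodule.subset_span (by simp)
  have hwR : w ∈ R := Submodule.subset_span (by simp)
  have hx₀R : x₀ ∈ R := by
    have e : x₀ = α⁻¹ • (w - β • x') := by
      rw [hw, add_sub_cancel_right, smul_smul, inv_mul_cancel₀ hα0.ne', one_smul]
    rw [e]
    exact R.smul_mem _ (R.sub_mem hwR (R.smul_mem _ hx'R))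
  have hRT : R ≤ T := by
    rw [hRdef, Submodule.span_le]
    rintro p (rfl | rfl)
    · exact hWT hwW
    · exact hg'.mem
  have hom1 : Hom K L R x' l' := by
    refine (hg'.mono hRT hx'R).hom hK hL ?_ ?_
    · rintro p ⟨hp1, hp2⟩
      exact ⟨hJK p (hR p hp2 hp1.1) hp1, hp2⟩
    · rintro p ⟨hp1, hp2⟩
      exact ⟨hJL p (hR p hp2 hp1.1) hp1, hp2⟩
  have hom2 : Hom K L R x₀ l₀ := h₀.mono hRT hx₀R
  have huniq := hom1.unique hK hL hom2 (Or.inl ⟨x', (hg'.x_mem hx'0).2.1, hx'R⟩)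
  rw [huniq.1] at hlt
  nlinarith [mul_self_nonneg (c₀ x₀)]

theorem pencil : PencilStmt := by
  intro E _ _ _ K L hK hL W e f hef hKW hLW hhom hdense
  by_contra hno
  -- coordinates
  obtain ⟨a, b, ha, hb, hae, haf, hbe, hbf⟩ : ∃ a b : E →ₗ[ℝ] ℝ, (∀ w ∈ W, a w = 0) ∧
      (∀ w ∈ W, b w = 0) ∧ a e = 1 ∧ a f = 0 ∧ b e = 0 ∧ b f = 1 := by
    let F : ℝ × ℝ →ₗ[ℝ] (E ⧸ W) :=
      (LinearMap.toSpanSingleton ℝ (E ⧸ W) (W.mkQ e)).coprod
        (LinearMap.toSpanSingleton ℝ (E ⧸ W) (W.mkQ f))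
    have hF : ∀ p : ℝ × ℝ, F p = W.mkQ (p.1 • e + p.2 • f) := by
      intro p
      simp [F]
    have hker : LinearMap.ker F = ⊥ := by
      rw [LinearMap.ker_eq_bot']
      intro p hp
      rw [hF, Submodule.mkQ_apply, Submodule.Quotient.mk_eq_zero] at hp
      obtain ⟨h1, h2⟩ := hef _ _ hp
      exact Prod.ext h1 h2
    obtain ⟨r, hr⟩ := F.exists_leftInverse_of_injective hker
    have hr' : ∀ p : ℝ × ℝ, r (W.mkQ (p.1 • e + p.2 • f)) = p := by
      intro p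
      rw [← hF]
      exact LinearMap.congr_fun hr p
    have he := hr' (1, 0)
    have hf := hr' (0, 1)
    simp only [one_smul, zero_smul, add_zero, zero_add] at he hf
    refine ⟨(LinearMap.fst ℝ ℝ ℝ) ∘ₗ r ∘ₗ W.mkQ, (LinearMap.snd ℝ ℝ ℝ) ∘ₗ r ∘ₗ W.mkQ,
      ?_, ?_, ?_, ?_, ?_, ?_⟩
    · intro w hw
      have : W.mkQ w = 0 := by
        rw [Submodule.mkQ_apply, Submodule.Quotient.mk_eq_zero]; exact hw
      simp only [LinearMap.comp_apply, this, map_zero]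
    · intro w hw
      have : W.mkQ w = 0 := by
        rw [Submodule.mkQ_apply, Submodule.Quotient.mk_eq_zero]; exact hw
      simp only [LinearMap.comp_apply, this, map_zero]
    · simp only [LinearMap.comp_apply, he, LinearMap.fst_apply]
    · simp only [LinearMap.comp_apply, hf, LinearMap.fst_apply]
    · simp only [LinearMap.comp_apply, he, LinearMap.snd_apply]
    · simp only [LinearMap.comp_apply, hf, LinearMap.snd_apply]
  let v : ℝ → E := fun θ => Real.cos θ • e + Real.sin θ • f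
  have hvc : Continuous v := by
    show Continuous fun θ : ℝ => Real.cos θ • e + Real.sin θ • f
    fun_prop
  let c : ℝ → E →ₗ[ℝ] ℝ := fun θ => Real.cos θ • a + Real.sin θ • b
  have hcdef : ∀ θ p, c θ p = Real.cos θ * a p + Real.sin θ * b p := fun θ p => by simp [c]
  have hcv : ∀ θ, c θ (v θ) = 1 := by
    intro θ
    rw [hcdef]
    simp only [v, map_add, map_smul, hae, haf, hbe, hbf, smul_eq_mul]
    nlinarith [Real.sin_sq_add_cos_sq θ]
  have hcW : ∀ θ, ∀ w ∈ W, c θ w = 0 := by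
    intro θ w hw
    rw [hcdef, ha w hw, hb w hw]; ring
  choose x l hxl using hhom
  have hxl : ∀ θ, Hom K L (W ⊔ Submodule.span ℝ {v θ}) (x θ) (l θ) := hxl
  let g : ℝ → ℝ := fun θ => c θ (x θ)
  have hmemW : ∀ θ, ∀ p ∈ W ⊔ Submodule.span ℝ {v θ}, c θ p = 0 → p ∈ W := by
    intro θ p hp hcp
    obtain ⟨w, hw, y, hy, rfl⟩ := Submodule.mem_sup.1 hp
    obtain ⟨a, rfl⟩ := Submodule.mem_span_singleton.1 hy
    rw [map_add, hcW θ w hw, map_smul, hcv θ] at hcp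
    have ha : a = 0 := by simpa using hcp
    rw [ha, zero_smul, add_zero]
    exact hw
  have hg0 : ∀ θ, g θ ≠ 0 := by
    intro θ h0
    exact hno ⟨x θ, l θ, (hxl θ).mono le_sup_left (hmemW θ _ (hxl θ).1 h0)⟩
  -- antiperiodicity
  have hgpi : g Real.pi = -g 0 := by
    have hS : W ⊔ Submodule.span ℝ {v Real.pi} = W ⊔ Submodule.span ℝ {v 0} := by
      have : v Real.pi = -v 0 := by simp [v]
      rw [this, ← Set.neg_singleton, Submodule.span_neg]
    have h1 := hxl Real.pi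
    rw [hS] at h1
    obtain ⟨p, hp⟩ := hKW
    have h2 := (h1.unique hK hL (hxl 0) (Or.inl ⟨p, hp.1, Submodule.mem_sup_left hp.2⟩)).1
    simp only [g, h2, hcdef, Real.cos_pi, Real.sin_pi, Real.cos_zero, Real.sin_zero]
    ring
  -- no sign changes nearby
  set G : Set ℝ := {θ : ℝ | ∀ p, p ∈ W ⊔ Submodule.span ℝ {Real.cos θ • e + Real.sin θ • f} →
      p ∉ W → (p ∈ Dir K ∨ p ∈ Dir L) → p ∈ closure (Dir K ∩ Dir L ∩
        (W ⊔ Submodule.span ℝ {Real.cos θ • e + Real.sin θ • f} : Submodule ℝ E))} with hGdef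
  have hacont : Continuous a := a.continuous_of_finiteDimensional
  have hbcont : Continuous b := b.continuous_of_finiteDimensional
  have hclaim : ∀ θ₀ : ℝ, ∀ᶠ θ in 𝓝 θ₀, θ ∈ G → 0 < g θ * g θ₀ := by
    intro θ₀
    rw [← eventually_nhdsWithin_iff]
    by_contra hcon
    rw [Filter.not_eventually] at hcon
    obtain ⟨θs, hθs, hθ⟩ := exists_seq_forall_of_frequently
      (hcon.and_eventually self_mem_nhdsWithin)
    have hθ0 : Tendsto θs atTop (𝓝 θ₀) := hθs.mono_right nhdsWithin_le_nhds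
    apply hno
    refine nojump hK hL hKW hLW (v := fun i => v (θs i)) (v₀ := v θ₀) (c := fun i => c (θs i))
      (c₀ := c θ₀) ((hvc.tendsto θ₀).comp hθ0) (hcv _) (fun i => hcW _) (hcW _)
      ?_ (x := fun i => x (θs i)) (l := fun i => l (θs i)) (fun i => hxl (θs i)) (hxl θ₀)
      (fun i => (hθ i).2) ?_
    · intro φ y y' hφ hy
      simp only [hcdef]
      have h1 : Tendsto (fun i => θs (φ i)) atTop (𝓝 θ₀) := hθ0.comp hφ.tendsto_atTop
      exact (((Real.continuous_cos.tendsto θ₀).comp h1).mul ((hacont.tendsto y').comp hy)).add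
        (((Real.continuous_sin.tendsto θ₀).comp h1).mul ((hbcont.tendsto y').comp hy))
    · intro i
      exact lt_of_le_of_ne (not_lt.1 (hθ i).1) (mul_ne_zero (hg0 _) (hg0 _))
  -- connectedness
  let A : Set ℝ := {θ | ∀ᶠ y in 𝓝 θ, y ∈ G → 0 < g y}
  let B : Set ℝ := {θ | ∀ᶠ y in 𝓝 θ, y ∈ G → g y < 0}
  have hAo : IsOpen A := isOpen_setOfPred_eventually_nhds
  have hBo : IsOpen B := isOpen_setOfPred_eventually_nhds
  have hpos : ∀ θ, 0 < g θ → θ ∈ A := fun θ hθ =>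
    (hclaim θ).mono fun y hy hyG => (pos_iff_pos_of_mul_pos (hy hyG)).2 hθ
  have hneg : ∀ θ, g θ < 0 → θ ∈ B := fun θ hθ =>
    (hclaim θ).mono fun y hy hyG => (neg_iff_neg_of_mul_pos (hy hyG)).2 hθ
  have hdisj : ∀ θ, θ ∈ A → θ ∈ B → False := by
    intro θ h1 h2
    have h3 : ∃ᶠ y in 𝓝 θ, y ∈ G := mem_closure_iff_frequently.1 (hdense θ)
    obtain ⟨y, hy, hyA, hyB⟩ := (h3.and_eventually (h1.and h2)).exists
    exact lt_asymm (hyA hy) (hyB hy)
  have hAB : A = Bᶜ := by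
    ext θ
    constructor
    · exact fun h1 h2 => hdisj θ h1 h2
    · intro h1
      rcases lt_or_gt_of_ne (hg0 θ) with h2 | h2
      · exact absurd (hneg θ h2) h1
      · exact hpos θ h2
  have hclopen : IsClopen A := ⟨by rw [hAB]; exact hBo.isClosed_compl, hAo⟩
  rcases isClopen_iff.1 hclopen with hA | hA
  · rcases lt_or_gt_of_ne (hg0 0) with h2 | h2
    · have h3 : Real.pi ∈ A := hpos _ (by rw [hgpi]; linarith)
      rw [hA] at h3
      exact h3
    · have h3 : (0 : ℝ) ∈ A := hpos _ h2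
      rw [hA] at h3
      exact h3
  · rcases lt_or_gt_of_ne (hg0 0) with h2 | h2
    · exact hdisj 0 (by rw [hA]; trivial) (hneg _ h2)
    · exact hdisj Real.pi (by rw [hA]; trivial) (hneg _ (by rw [hgpi]; linarith))

end Pool.Agent.H49.SB
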